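import Pool.Agent.U670.CV.Fr

/-!
# The final form
-/

set_option autoImplicit false

namespace Pool.Agent.U670.CV

open Pool.Agent.R569.CS (act mem_act act_mono act_normal)

section

variable {G : Type} [Group G] {W : AddSubgroup (G → ℤ)}

/-- the congruence subgroups of `Aut G` -/
def CA (G : Type) [Group G] : Set (Subgroup (MulAut G)) :=
  {C | ∃ K : Subgroup G, K.Characteristic ∧ K.FiniteIndex ∧ C = actK K}

theorem top_CA [Group.FG G] (hA : Adm (⊥ : Subgroup (MulAut G)) W)
    (hab : ∀ g : G, (∀ f : G →* Multiplicative ℤ, f g = 1) → g ∈ commutator G) :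
    Top (CA G) where
  ne := ⟨_, ⊤, inferInstance, inferInstance, rfl⟩
  dir := by
    rintro _ ⟨K, hK1, hK2, rfl⟩ _ ⟨K', hK1', hK2', rfl⟩
    refine ⟨_, ⟨K ⊓ K', ?_, inferInstance, rfl⟩, le_inf ?_ ?_⟩
    · rw [Subgroup.characteristic_iff_map_eq]
      intro φ
      rw [Subgroup.map_inf_eq _ _ _ φ.injective, Subgroup.characteristic_iff_map_eq.1 hK1,
        Subgroup.characteristic_iff_map_eq.1 hK1']
    · exact act_mono inf_le_left
    · exact act_mono inf_le_right
  nor := by
    rintro _ ⟨K, hK1, hK2, rfl⟩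
    exact act_normal _ K
  haus := by
    intro φ hz
    rw [← Subgroup.mem_bot]
    apply hA.faith
    intro c h hh hW
    funext x
    by_contra hne
    have h0 : h (φ x) - h x ≠ 0 := sub_ne_zero.2 hne
    let m : ℕ := (h (φ x) - h x).natAbs + 1
    have hψ := hz _ ⟨Kf G c m, Kf_char c m, Kf_fin c m (Nat.succ_pos _), rfl⟩
    have h1 := dvd_of_act hψ hh x
    have h2 := Int.natAbs_dvd_natAbs.2 h1
    have h3 := Nat.le_of_dvd (Int.natAbs_pos.2 h0) h2
    simp only [Int.natAbs_natCast] at h3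
    omega
  ab := by
    intro B hfg hB V hV
    let inst : CommGroup B := { (inferInstance : Group B) with
      mul_comm := fun a b => Subtype.ext (hB a a.2 b b.2) }
    have hfgB : Group.FG B := (Group.fg_iff_subgroup_fg B).2 hfg
    have hinj : Function.Injective
        ((QuotientGroup.mk' (⊥ : Subgroup (MulAut G))).comp B.subtype) := by
      intro a b h
      have h1 : (a : MulAut G)⁻¹ * b ∈ (⊥ : Subgroup (MulAut G)) := QuotientGroup.eq.1 h
      rw [Subgroup.mem_bot, inv_mul_eq_one] at h1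
      exact Subtype.ext h1
    obtain ⟨c, m, hm, h1⟩ := ab_core frob hA hab (A := B)
      ((QuotientGroup.mk' (⊥ : Subgroup (MulAut G))).comp B.subtype) hinj V hV
    refine ⟨_, ⟨Kf G c m, Kf_char c m, Kf_fin c m hm, rfl⟩, ?_⟩
    intro x hx
    exact h1 x x rfl fun h hh y => dvd_of_act hx hh.1 y

theorem fg_of_relIndex {Γ : Type} [Group Γ] {A B : Subgroup Γ} (hBA : B ≤ A) (hA : A.FG)
    (h : B.relIndex A ≠ 0) : B.FG := by
  have h1 : Group.FG A := (Group.fg_iff_subgroup_fg A).2 hA
  have h0 : (B.subgroupOf A).FiniteIndex := ⟨h⟩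
  have h2 : Group.FG (B.subgroupOf A) := Subgroup.fg_of_index_ne_zero _
  obtain ⟨S, hS⟩ := (Group.fg_iff_subgroup_fg _).1 h2
  classical
  refine ⟨S.image A.subtype, ?_⟩
  rw [Finset.coe_image, ← MonoidHom.map_closure, hS, Subgroup.subgroupOf_map_subtype,
    inf_eq_left.2 hBA]

end

end Pool.Agent.U670.CV
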