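import Mathlib

/-!
# Finitely generated abelian groups
-/

set_option autoImplicit false

namespace Pool.Agent.U670.CV

universe u v

theorem fg_of_inj {G : Type u} {H : Type v} [CommGroup G] [CommGroup H] [hH : Group.FG H]
    (f : G →* H) (hf : Function.Injective f) : Group.FG G := by
  have h1 : AddGroup.FG (Additive H) := inferInstance
  have h2 : Module.Finite ℤ (Additive H) := Module.Finite.iff_addGroup_fg.2 h1
  have h3 : IsNoetherian ℤ (Additive H) := inferInstance
  have h4 : IsNoetherian ℤ (Additive G) :=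
    isNoetherian_of_injective (MonoidHom.toAdditive f).toIntLinearMap hf
  have h5 : Module.Finite ℤ (Additive G) := inferInstance
  have h6 : AddGroup.FG (Additive G) := Module.Finite.iff_addGroup_fg.1 h5
  exact GroupFG.iff_add_fg.2 h6

theorem fg_sub {G : Type u} [CommGroup G] [Group.FG G] (H : Subgroup G) : Group.FG H :=
  fg_of_inj H.subtype H.subtype_injective

theorem finite_quot {G : Type u} [CommGroup G] [Group.FG G] {n : ℕ} (hn : 0 < n) :
    Finite (G ⧸ (powMonoidHom n : G →* G).range) := by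
  have h1 : Group.FG (G ⧸ (powMonoidHom n : G →* G).range) := QuotientGroup.fg _
  apply CommGroup.finite_of_fg_isMulTorsion
  intro g
  induction g using QuotientGroup.induction_on with
  | H z =>
    refine isOfFinOrder_iff_pow_eq_one.2 ⟨n, hn, ?_⟩
    rw [← QuotientGroup.mk_pow]
    exact (QuotientGroup.eq_one_iff _).2 ⟨z, rfl⟩

/-- in a finitely generated abelian group the elements which have a power in a subgroup `W` have a
common power in `W` -/
theorem root_bound {E : Type u} [CommGroup E] [Group.FG E] (W : Subgroup E) :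
    ∃ k : ℕ, 0 < k ∧ ∀ e : E, (∃ l : ℕ, 0 < l ∧ e ^ l ∈ W) → e ^ k ∈ W := by
  have hfg : Group.FG (E ⧸ W) := QuotientGroup.fg _
  have hT2 : Group.FG (CommGroup.torsion (E ⧸ W)) := fg_sub _
  have hfin : Finite (CommGroup.torsion (E ⧸ W)) := by
    apply CommGroup.finite_of_fg_isMulTorsion
    intro g
    have h := g.2
    obtain ⟨n, hn, h2⟩ := isOfFinOrder_iff_pow_eq_one.1 h
    exact isOfFinOrder_iff_pow_eq_one.2 ⟨n, hn, Subtype.ext h2⟩
  refine ⟨Nat.card (CommGroup.torsion (E ⧸ W)), Nat.card_pos, ?_⟩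
  rintro e ⟨l, hl, hel⟩
  have h1 : (QuotientGroup.mk e : E ⧸ W) ∈ CommGroup.torsion (E ⧸ W) := by
    apply isOfFinOrder_iff_pow_eq_one.2
    refine ⟨l, hl, ?_⟩
    rw [← QuotientGroup.mk_pow]
    exact (QuotientGroup.eq_one_iff _).2 hel
  have h2 : (⟨QuotientGroup.mk e, h1⟩ : CommGroup.torsion (E ⧸ W)) ^
      Nat.card (CommGroup.torsion (E ⧸ W)) = 1 := pow_card_eq_one'
  have h3 : (QuotientGroup.mk e : E ⧸ W) ^ Nat.card (CommGroup.torsion (E ⧸ W)) = 1 :=
    congrArg Subtype.val h2
  rw [← QuotientGroup.mk_pow] at h3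
  exact (QuotientGroup.eq_one_iff _).1 h3

/-- the additive version -/
theorem root_bound_add {E : Type u} [AddCommGroup E] [AddGroup.FG E] (W : AddSubgroup E) :
    ∃ k : ℕ, 0 < k ∧ ∀ e : E, (∃ l : ℕ, 0 < l ∧ l • e ∈ W) → k • e ∈ W := by
  obtain ⟨k, hk, h⟩ := root_bound (E := Multiplicative E) (AddSubgroup.toSubgroup W)
  exact ⟨k, hk, fun e he => h (Multiplicative.ofAdd e) he⟩

end Pool.Agent.U670.CV
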