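import Mathlib

/-!
# Polynomial functions on groups
-/

set_option autoImplicit false

open scoped commutatorElement

namespace Pool.Agent.U670.CV

variable {G : Type} [Group G] {B : Type} [AddCommGroup B]

/-- the difference operator -/
def Dl (g : G) (h : G → B) : G → B := fun x => h (x * g) - h x

/-- polynomial functions of degree less than `c` -/
def Pol (G : Type) [Group G] (B : Type) [AddCommGroup B] : ℕ → AddSubgroup (G → B)
  | 0 => ⊥
  | c + 1 =>
    { carrier := {h | ∀ g, Dl g h ∈ Pol G B c}
      zero_mem' := fun g => by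
        have : Dl g (0 : G → B) = 0 := by funext x; simp [Dl]
        rw [this]; exact zero_mem _
      add_mem' := fun {h k} hh hk g => by
        have : Dl g (h + k) = Dl g h + Dl g k := by funext x; simp [Dl]; abel
        rw [this]; exact add_mem (hh g) (hk g)
      neg_mem' := fun {h} hh g => by
        have : Dl g (-h) = -Dl g h := by funext x; simp [Dl]; abel
        rw [this]; exact neg_mem (hh g) }

theorem mem_succ {c : ℕ} {h : G → B} : h ∈ Pol G B (c + 1) ↔ ∀ g, Dl g h ∈ Pol G B c := Iff.rfl

theorem mem_zero {h : G → B} : h ∈ Pol G B 0 ↔ h = 0 := AddSubgroup.mem_bot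

theorem Pol_le (c : ℕ) : Pol G B c ≤ Pol G B (c + 1) := by
  induction c with
  | zero =>
    intro h hh g
    rw [mem_zero] at hh
    rw [hh]
    have : Dl g (0 : G → B) = 0 := by funext x; simp [Dl]
    rw [this]
    exact zero_mem _
  | succ c ih => exact fun h hh g => ih (hh g)

theorem Pol_mono {c d : ℕ} (h : c ≤ d) : Pol G B c ≤ Pol G B d := by
  induction h with
  | refl => exact le_rfl
  | step _ ih => exact ih.trans (Pol_le _)

theorem Dl_mem {c : ℕ} {h : G → B} (hh : h ∈ Pol G B c) (g : G) : Dl g h ∈ Pol G B c := by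
  cases c with
  | zero =>
    rw [mem_zero] at hh
    rw [hh]
    have : Dl g (0 : G → B) = 0 := by funext x; simp [Dl]
    rw [this]
    exact zero_mem _
  | succ c => exact Pol_le c (hh g)

theorem trans_mem {c : ℕ} {h : G → B} (hh : h ∈ Pol G B c) (g : G) :
    (fun x => h (x * g)) ∈ Pol G B c := by
  have : (fun x => h (x * g)) = h + Dl g h := by funext x; simp [Dl]
  rw [this]
  exact add_mem hh (Dl_mem hh g)

theorem comp_mem {c : ℕ} (φ : G →* G) {h : G → B} (hh : h ∈ Pol G B c) :
    (fun x => h (φ x)) ∈ Pol G B c := by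
  induction c generalizing h with
  | zero =>
    rw [mem_zero] at hh ⊢
    rw [hh]; rfl
  | succ c ih =>
    intro g
    have : Dl g (fun x => h (φ x)) = fun x => (Dl (φ g) h) (φ x) := by
      funext x; simp [Dl]
    rw [this]
    exact ih (hh (φ g))

/-- differences for elements of the commutator subgroup lower the degree by two -/
theorem Dl_comm {k : G} (hk : k ∈ commutator G) {c : ℕ} {h : G → B} (hh : h ∈ Pol G B (c + 2)) :
    Dl k h ∈ Pol G B c := by
  let S : Subgroup G :=
    { carrier := {k | Dl k h ∈ Pol G B c}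
      one_mem' := by
        have : Dl (1 : G) h = 0 := by funext x; simp [Dl]
        change Dl (1 : G) h ∈ Pol G B c
        rw [this]; exact zero_mem _
      mul_mem' := fun {a b} ha hb => by
        have : Dl (a * b) h = (fun x => Dl b h (x * a)) + Dl a h := by
          funext x; simp [Dl, mul_assoc]
        change Dl (a * b) h ∈ Pol G B c
        rw [this]
        exact add_mem (trans_mem hb a) ha
      inv_mem' := fun {a} ha => by
        have : Dl a⁻¹ h = -fun x => Dl a h (x * a⁻¹) := by
          funext x; simp [Dl, mul_assoc]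
        change Dl a⁻¹ h ∈ Pol G B c
        rw [this]
        exact neg_mem (trans_mem ha a⁻¹) }
  have hS : commutator G ≤ S := by
    rw [commutator_def, Subgroup.commutator_le]
    intro a _ b _
    change Dl ⁅a, b⁆ h ∈ Pol G B c
    have h1 : Dl a⁻¹ (Dl b⁻¹ h) ∈ Pol G B c := hh b⁻¹ a⁻¹
    have h2 : Dl b⁻¹ (Dl a⁻¹ h) ∈ Pol G B c := hh a⁻¹ b⁻¹
    have h3 : Dl ⁅a, b⁆ h =
        fun x => (Dl a⁻¹ (Dl b⁻¹ h) - Dl b⁻¹ (Dl a⁻¹ h)) (x * (b⁻¹ * a⁻¹)⁻¹) := by
      funext x
      simp [Dl, commutatorElement_def, mul_assoc]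
      abel
    rw [h3]
    exact trans_mem (sub_mem h1 h2) _
  exact hS hk

/-- an automorphism which is trivial on the abelianisation changes a polynomial function by a
function of lower degree -/
theorem sub_mem_of_comm (φ : G →* G) (hφ : ∀ g, g⁻¹ * φ g ∈ commutator G) (c : ℕ) {h : G → B}
    (hh : h ∈ Pol G B (c + 1)) : (fun x => h (φ x) - h x) ∈ Pol G B c := by
  induction c generalizing h with
  | zero =>
    rw [mem_zero]
    funext x
    have h1 := congrFun (mem_zero.1 (hh (x⁻¹ * φ x))) x
    simp only [Dl, mul_inv_cancel_left] at h1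
    exact h1
  | succ c ih =>
    intro g
    have e : Dl g (fun x => h (φ x) - h x) = (fun x => Dl (φ g) h (φ x) - Dl (φ g) h x) +
        fun x => Dl (g⁻¹ * φ g) h (x * g) := by
      funext x
      simp [Dl, mul_assoc]
      abel
    rw [e]
    exact add_mem (ih (hh (φ g))) (trans_mem (Dl_comm (hφ g) hh) g)

/-! ### Finiteness -/

theorem eq_zero_of_gen {S : Set G} (hS : Subgroup.closure S = ⊤) {h : G → B} (h1 : h 1 = 0)
    (h2 : ∀ s ∈ S, Dl s h = 0) : h = 0 := by
  let T : Subgroup G :=
    { carrier := {g | ∀ x, h (x * g) = h x}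
      one_mem' := fun x => by rw [mul_one]
      mul_mem' := fun {a b} ha hb x => by rw [← mul_assoc, hb, ha]
      inv_mem' := fun {a} ha x => by
        have := ha (x * a⁻¹)
        rw [inv_mul_cancel_right] at this
        exact this.symm }
  have hT : Subgroup.closure S ≤ T := by
    rw [Subgroup.closure_le]
    intro s hs x
    have := congrFun (h2 s hs) x
    exact sub_eq_zero.1 this
  funext x
  have h3 : x ∈ T := hT (by rw [hS]; trivial)
  have h4 := h3 1
  rw [one_mul, h1] at h4
  exact h4

/-- the values at `1` of a function and its differences -/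
def res (B : Type) [AddCommGroup B] (S : Set G) (c : ℕ) :
    Pol G B (c + 1) →+ B × (S → Pol G B c) where
  toFun h := (h.1 1, fun s => ⟨Dl (s : G) h.1, h.2 s⟩)
  map_zero' := by
    refine Prod.ext rfl ?_
    funext s
    apply Subtype.ext
    funext x
    simp [Dl]
  map_add' h k := by
    refine Prod.ext rfl ?_
    funext s
    apply Subtype.ext
    funext x
    simp [Dl]
    abel

theorem res_injective {S : Set G} (hS : Subgroup.closure S = ⊤) (c : ℕ) :
    Function.Injective (res B S c) := by
  rw [injective_iff_map_eq_zero]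
  intro h hh
  apply Subtype.ext
  apply eq_zero_of_gen hS
  · exact congrArg Prod.fst hh
  · intro s hs
    exact congrArg Subtype.val (congrFun (congrArg Prod.snd hh) ⟨s, hs⟩)

theorem finite_Pol [Group.FG G] [Finite B] (c : ℕ) : Finite (Pol G B c) := by
  obtain ⟨S, hS, hSf⟩ := Group.fg_iff.1 (inferInstance : Group.FG G)
  have : Finite S := hSf
  induction c with
  | zero =>
    have : Subsingleton (Pol G B 0) := ⟨fun a b => Subtype.ext (by
      rw [mem_zero.1 a.2, mem_zero.1 b.2])⟩
    infer_instance
  | succ c ih => exact Finite.of_injective _ (res_injective hS c)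

theorem noeth_Pol [Group.FG G] (c : ℕ) : IsNoetherian ℤ (Pol G ℤ c) := by
  obtain ⟨S, hS, hSf⟩ := Group.fg_iff.1 (inferInstance : Group.FG G)
  have : Finite S := hSf
  induction c with
  | zero =>
    have : Subsingleton (Pol G ℤ 0) := ⟨fun a b => Subtype.ext (by
      rw [mem_zero.1 a.2, mem_zero.1 b.2])⟩
    infer_instance
  | succ c ih => exact isNoetherian_of_injective (res ℤ S c).toIntLinearMap (res_injective hS c)

/-! ### The finite quotient -/

/-- the elements which act trivially on the polynomial functions modulo `m` -/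
def Kf (G : Type) [Group G] (c m : ℕ) : Subgroup G where
  carrier := {g | ∀ h ∈ Pol G (ZMod m) c, ∀ x, h (x * g) = h x}
  one_mem' := fun h _ x => by rw [mul_one]
  mul_mem' := fun {a b} ha hb h hh x => by rw [← mul_assoc, hb h hh, ha h hh]
  inv_mem' := fun {a} ha h hh x => by
    have := ha h hh (x * a⁻¹)
    rw [inv_mul_cancel_right] at this
    exact this.symm

theorem Kf_char (c m : ℕ) : (Kf G c m).Characteristic := by
  rw [Subgroup.characteristic_iff_le_comap]
  intro φ g hg
  rw [Subgroup.mem_comap]
  intro h hh x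
  have h1 := hg _ (comp_mem φ.toMonoidHom hh) (φ.symm x)
  simpa using h1

theorem Kf_fin [Group.FG G] (c m : ℕ) (hm : 0 < m) : (Kf G c m).FiniteIndex := by
  have : NeZero m := ⟨hm.ne'⟩
  have hfin : Finite (Pol G (ZMod m) c) := finite_Pol c
  let f : G → (Pol G (ZMod m) c → Pol G (ZMod m) c) := fun g h => ⟨_, trans_mem h.2 g⟩
  have hf : ∀ a b : G, f a = f b ↔ a⁻¹ * b ∈ Kf G c m := by
    intro a b
    constructor
    · intro h k hk x
      have h1 := congrFun (congrArg Subtype.val (congrFun h ⟨k, hk⟩)) (x * a⁻¹)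
      change k (x * a⁻¹ * a) = k (x * a⁻¹ * b) at h1
      rw [inv_mul_cancel_right, mul_assoc] at h1
      exact h1.symm
    · intro h
      funext k
      apply Subtype.ext
      funext x
      change k.1 (x * a) = k.1 (x * b)
      have h1 := h k.1 k.2 (x * a)
      rw [mul_assoc, mul_inv_cancel_left] at h1
      exact h1.symm
  have hq : Finite (G ⧸ Kf G c m) := by
    let f' : G ⧸ Kf G c m → (Pol G (ZMod m) c → Pol G (ZMod m) c) :=
      Quotient.lift (s := QuotientGroup.leftRel _) f (by
        intro a b hab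
        exact (hf a b).2 (QuotientGroup.leftRel_apply.1 hab))
    refine Finite.of_injective f' ?_
    intro x y
    induction x using QuotientGroup.induction_on with
    | H a =>
      induction y using QuotientGroup.induction_on with
      | H b =>
        intro h
        exact QuotientGroup.eq.2 ((hf a b).1 h)
  exact Subgroup.finiteIndex_of_finite_quotient

theorem cast_mem (m : ℕ) {c : ℕ} {h : G → ℤ} (hh : h ∈ Pol G ℤ c) :
    (fun x => ((h x : ℤ) : ZMod m)) ∈ Pol G (ZMod m) c := by
  induction c generalizing h with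
  | zero =>
    rw [mem_zero] at hh ⊢
    rw [hh]
    funext x
    simp
  | succ c ih =>
    intro g
    have e : Dl g (fun x => ((h x : ℤ) : ZMod m)) = fun x => ((Dl g h x : ℤ) : ZMod m) := by
      funext x; simp [Dl]
    rw [e]
    exact ih (hh g)

theorem pure_Pol {m : ℕ} (hm : 0 < m) {c : ℕ} {h : G → ℤ}
    (hh : (fun x => (m : ℤ) * h x) ∈ Pol G ℤ c) : h ∈ Pol G ℤ c := by
  induction c generalizing h with
  | zero =>
    rw [mem_zero] at hh ⊢
    funext x
    have h1 : (m : ℤ) * h x = 0 := congrFun hh x
    have h2 : (m : ℤ) ≠ 0 := by exact_mod_cast hm.ne'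
    exact (mul_eq_zero.1 h1).resolve_left h2
  | succ c ih =>
    intro g
    apply ih
    have e : (fun x => (m : ℤ) * Dl g h x) = Dl g (fun x => (m : ℤ) * h x) := by
      funext x; simp [Dl, mul_sub]
    rw [e]
    exact hh g

/-! ### Class functions -/

/-- the polynomial class functions of degree less than `c` -/
def CF (G : Type) [Group G] (c : ℕ) : AddSubgroup (G → ℤ) where
  carrier := {h | h ∈ Pol G ℤ c ∧ ∀ x y, h (x * y) = h (y * x)}
  zero_mem' := ⟨zero_mem _, fun _ _ => rfl⟩
  add_mem' := fun ha hb => ⟨add_mem ha.1 hb.1, fun x y => by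
    rw [Pi.add_apply, Pi.add_apply, ha.2, hb.2]⟩
  neg_mem' := fun ha => ⟨neg_mem ha.1, fun x y => by rw [Pi.neg_apply, Pi.neg_apply, ha.2]⟩

theorem noeth_CF [Group.FG G] (c : ℕ) : IsNoetherian ℤ (CF G c) := by
  have h1 := noeth_Pol (G := G) c
  let f : CF G c →+ Pol G ℤ c :=
    { toFun := fun h => ⟨h.1, h.2.1⟩
      map_zero' := rfl
      map_add' := fun _ _ => rfl }
  refine isNoetherian_of_injective f.toIntLinearMap (fun a b h => Subtype.ext ?_)
  have h2 : (f a).1 = (f b).1 := congrArg Subtype.val h
  exact h2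

end Pool.Agent.U670.CV
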