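import Pool.Agent.U670.CV.EndC
import Pool.Agent.U670.CV.Pol

/-!
# Abelian groups of (outer) automorphisms acting on polynomial functions
-/

set_option autoImplicit false

namespace Pool.Agent.U670.CV

variable {G : Type} [Group G]

/-- admissible pairs: a normal subgroup `N` of `Aut G` and a group `W` of functions on `G` -/
structure Adm (N : Subgroup (MulAut G)) (W : AddSubgroup (G → ℤ)) : Prop where
  comp : ∀ φ : MulAut G, ∀ h ∈ W, (fun x => h (φ x)) ∈ W
  triv : ∀ φ ∈ N, ∀ h ∈ W, (fun x => h (φ x)) = h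
  pure : ∀ m : ℕ, 0 < m → ∀ h : G → ℤ, (fun x => (m : ℤ) * h x) ∈ W → h ∈ W
  homs : ∀ f : G →* Multiplicative ℤ, (fun x => Multiplicative.toAdd (f x)) ∈ W
  faith : ∀ φ : MulAut G, (∀ c, ∀ h ∈ Pol G ℤ c, h ∈ W → (fun x => h (φ x)) = h) → φ ∈ N

/-- the group of functions -/
abbrev Mc (W : AddSubgroup (G → ℤ)) (c : ℕ) : AddSubgroup (G → ℤ) := Pol G ℤ c ⊓ W

theorem Mc_noeth [Group.FG G] (W : AddSubgroup (G → ℤ)) (c : ℕ) : IsNoetherian ℤ (Mc W c) := by
  have h1 := noeth_Pol (G := G) c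
  let f : Mc W c →+ Pol G ℤ c :=
    { toFun := fun h => ⟨h.1, h.2.1⟩
      map_zero' := rfl
      map_add' := fun _ _ => rfl }
  refine isNoetherian_of_injective f.toIntLinearMap (fun a b h => Subtype.ext ?_)
  have h2 : (f a).1 = (f b).1 := congrArg Subtype.val h
  exact h2

theorem Mc_tf (W : AddSubgroup (G → ℤ)) (c : ℕ) : Module.IsTorsionFree ℤ (Mc W c) := by
  let f : Mc W c →ₗ[ℤ] (G → ℤ) := (Mc W c).subtype.toIntLinearMap
  have hf : Function.Injective f := Subtype.val_injective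
  exact hf.moduleIsTorsionFree _ (map_smul f)

theorem pol_hom {f : G →* Multiplicative ℤ} : (fun x => Multiplicative.toAdd (f x)) ∈ Pol G ℤ 2 := by
  intro g g'
  rw [mem_zero]
  funext x
  simp [Dl]

variable {N : Subgroup (MulAut G)} {W : AddSubgroup (G → ℤ)}

/-- the action of the automorphisms -/
def rho0 (hA : Adm N W) (c : ℕ) : MulAut G →* Module.End ℤ (Mc W c) where
  toFun φ :=
    { toFun := fun h => ⟨fun x => h.1 (φ⁻¹ x),
        comp_mem (φ⁻¹ : MulAut G).toMonoidHom h.2.1, hA.comp φ⁻¹ h.1 h.2.2⟩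
      map_add' := fun _ _ => rfl
      map_smul' := fun _ _ => rfl }
  map_one' := by
    apply LinearMap.ext
    intro h
    apply Subtype.ext
    funext x
    simp
  map_mul' φ ψ := by
    apply LinearMap.ext
    intro h
    apply Subtype.ext
    funext x
    simp

theorem rho0_apply (hA : Adm N W) (c : ℕ) (φ : MulAut G) (h : Mc W c) (x : G) :
    (rho0 hA c φ h).1 x = h.1 (φ⁻¹ x) := rfl

/-- the action of the quotient group -/
def rho [N.Normal] (hA : Adm N W) (c : ℕ) : MulAut G ⧸ N →* Module.End ℤ (Mc W c) :=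
  QuotientGroup.lift N (rho0 hA c) (by
    intro φ hφ
    apply LinearMap.ext
    intro h
    apply Subtype.ext
    exact hA.triv φ⁻¹ (N.inv_mem hφ) h.1 h.2.2)

theorem rho_mk [N.Normal] (hA : Adm N W) (c : ℕ) (φ : MulAut G) :
    rho hA c (QuotientGroup.mk φ) = rho0 hA c φ := rfl

theorem rho_ker [N.Normal] (hA : Adm N W) (c : ℕ) (φ : MulAut G) :
    rho hA c (QuotientGroup.mk φ) = 1 ↔ ∀ h ∈ Mc W c, ∀ x, h (φ⁻¹ x) = h x := by
  rw [rho_mk]
  constructor
  · intro h k hk x
    have h1 := LinearMap.congr_fun h ⟨k, hk⟩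
    exact congrFun (congrArg Subtype.val h1) x
  · intro h
    apply LinearMap.ext
    intro k
    apply Subtype.ext
    funext x
    exact h k.1 k.2 x

/-- **The abelian case.** -/
theorem ab_core (hF : Frob) [Group.FG G] [N.Normal] (hA : Adm N W)
    (hab : ∀ g : G, (∀ f : G →* Multiplicative ℤ, f g = 1) → g ∈ commutator G)
    {A : Type} [CommGroup A] [Group.FG A] (θ : A →* MulAut G ⧸ N) (hθ : Function.Injective θ)
    (V : Subgroup A) (hV : V.FiniteIndex) :
    ∃ c m : ℕ, 0 < m ∧ ∀ (a : A) (φ : MulAut G), QuotientGroup.mk φ = θ a →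
      (∀ h ∈ Mc W c, ∀ x, (m : ℤ) ∣ h (φ x) - h x) → a ∈ V := by
  let K : ℕ → Subgroup A := fun c => ((rho hA c).comp θ).ker
  have hrep : ∀ a : A, ∃ φ : MulAut G, QuotientGroup.mk φ = θ a := fun a =>
    QuotientGroup.mk_surjective (θ a)
  have hK : ∀ c (a : A) (φ : MulAut G), QuotientGroup.mk φ = θ a →
      (a ∈ K c ↔ ∀ h ∈ Mc W c, ∀ x, h (φ⁻¹ x) = h x) := by
    intro c a φ hφ
    rw [← rho_ker hA c φ, hφ]
    rfl
  have hKle : ∀ c, K (c + 1) ≤ K c := by
    intro c a ha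
    obtain ⟨φ, hφ⟩ := hrep a
    rw [hK (c + 1) a φ hφ] at ha
    rw [hK c a φ hφ]
    exact fun h hh => ha h ⟨Pol_le c hh.1, hh.2⟩
  have hKanti : Antitone K := antitone_nat_of_succ_le hKle
  have hKt : ∀ c, 2 ≤ c → ∀ a ∈ K c, ∀ k : ℕ, 0 < k → a ^ k ∈ K (c + 1) → a ∈ K (c + 1) := by
    intro c hc a ha k hk hak
    obtain ⟨φ, hφ⟩ := hrep a
    have ha2 : a ∈ K 2 := hKanti hc ha
    rw [hK 2 a φ hφ] at ha2
    have hcomm : ∀ g, g⁻¹ * (φ⁻¹ : MulAut G) g ∈ commutator G := by
      intro g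
      apply hab
      intro f
      have h1 := ha2 _ ⟨pol_hom, hA.homs f⟩ g
      rw [map_mul, map_inv]
      have h2 : f ((φ⁻¹ : MulAut G) g) = f g := h1
      rw [h2, inv_mul_cancel]
    have ha1 := (hK c a φ hφ).1 ha
    let E : Module.End ℤ (Mc W (c + 1)) := rho hA (c + 1) (θ a)
    have hEφ : E = rho0 hA (c + 1) φ := by rw [← rho_mk, hφ]
    have hD : ∀ h : Mc W (c + 1), E (E h - h) = E h - h := by
      intro h
      have h1 : (E h - h).1 ∈ Mc W c := by
        refine ⟨?_, (E h - h).2.2⟩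
        have h2 := sub_mem_of_comm (φ⁻¹ : MulAut G).toMonoidHom hcomm c h.2.1
        rw [hEφ]
        exact h2
      apply Subtype.ext
      funext x
      have h3 := ha1 _ h1 x
      have h4 : (E (E h - h)).1 x = (E h - h).1 (φ⁻¹ x) := by
        conv_lhs => rw [hEφ]
        rw [rho0_apply, hEφ]
      rw [h4, h3]
    have hN2 : (E - 1) * (E - 1) = 0 := by
      apply LinearMap.ext
      intro h
      change E (E h - h) - (E h - h) = 0
      rw [hD, sub_self]
    have hpow : ∀ j : ℕ, E ^ j = 1 + (j : ℤ) • (E - 1) := by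
      intro j
      induction j with
      | zero => simp
      | succ j ih =>
        have e1 : E ^ (j + 1) = E ^ j * (1 + (E - 1)) := by rw [add_sub_cancel, pow_succ]
        rw [e1, ih, mul_add, mul_one, add_mul, one_mul, smul_mul_assoc, hN2, smul_zero, add_zero]
        push_cast
        rw [add_smul, one_smul, add_assoc]
    have hEk : E ^ k = 1 := by
      have h1 : (rho hA (c + 1)).comp θ (a ^ k) = 1 := hak
      rw [map_pow] at h1
      exact h1
    have h5 : (k : ℤ) • (E - 1) = 0 := by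
      have h6 := hpow k
      rw [hEk] at h6
      exact (add_eq_left.1 h6.symm)
    have htf := Mc_tf W (c + 1)
    have h7 : E - 1 = 0 := by
      have hk0 : (k : ℤ) ≠ 0 := by exact_mod_cast hk.ne'
      exact (smul_eq_zero.1 h5).resolve_left hk0
    have h8 : E = 1 := sub_eq_zero.1 h7
    exact h8
  have hKi : ∀ a, (∀ c, a ∈ K c) → a = 1 := by
    intro a ha
    obtain ⟨φ, hφ⟩ := hrep a
    apply hθ
    rw [map_one, ← hφ, QuotientGroup.eq_one_iff]
    rw [← inv_inv φ]
    apply N.inv_mem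
    apply hA.faith
    intro c h hh hW
    funext x
    exact (hK c a φ hφ).1 (ha c) h ⟨hh, hW⟩ x
  obtain ⟨c, hc⟩ := filt K hKle hKt hKi
  have hnoe := Mc_noeth W c
  have htf := Mc_tf W c
  have hfin : Module.Finite ℤ (Mc W c) := inferInstance
  have hfree : Module.Free ℤ (Mc W c) := inferInstance
  have hker : ((rho hA c).comp θ).ker ≤ V := by
    have h1 : ((rho hA c).comp θ).ker = ⊥ := hc
    rw [h1]
    exact bot_le
  obtain ⟨m, hm, h1⟩ := end_csp hF ((rho hA c).comp θ) V hV hker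
  refine ⟨c, m, hm, ?_⟩
  intro a φ hφ hdiv
  apply h1
  have hm0 : (m : ℤ) ≠ 0 := by exact_mod_cast hm.ne'
  have hdiv' : ∀ h ∈ Mc W c, ∀ x, (m : ℤ) ∣ h (φ⁻¹ x) - h x := by
    intro h hh x
    have h2 := hdiv h hh (φ⁻¹ x)
    have h3 : φ (φ⁻¹ x) = x := by rw [← MulAut.mul_apply, mul_inv_cancel, MulAut.one_apply]
    rw [h3] at h2
    exact (dvd_sub_comm).1 h2
  have hq : ∀ h : Mc W c, ∀ x, (m : ℤ) * ((h.1 (φ⁻¹ x) - h.1 x) / m) = h.1 (φ⁻¹ x) - h.1 x :=
    fun h x => Int.mul_ediv_cancel' (hdiv' h.1 h.2 x)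
  have hsub : ∀ h : Mc W c, (fun x => h.1 (φ⁻¹ x) - h.1 x) ∈ Mc W c := by
    intro h
    have h2 := (rho0 hA c φ h - h).2
    exact h2
  let e : Module.End ℤ (Mc W c) :=
    { toFun := fun h => ⟨fun x => (h.1 (φ⁻¹ x) - h.1 x) / m,
        pure_Pol hm (by
          have h2 : (fun x => h.1 (φ⁻¹ x) - h.1 x) ∈ Pol G ℤ c := (hsub h).1
          rw [← funext (hq h)] at h2
          exact h2), hA.pure m hm _ (by
          have h2 : (fun x => h.1 (φ⁻¹ x) - h.1 x) ∈ W := (hsub h).2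
          rw [← funext (hq h)] at h2
          exact h2)⟩
      map_add' := by
        intro h k
        apply Subtype.ext
        funext x
        apply mul_left_cancel₀ hm0
        have e1 := hq (h + k) x
        have e2 := hq h x
        have e3 := hq k x
        change (m : ℤ) * (((h + k).1 (φ⁻¹ x) - (h + k).1 x) / m) =
          m * ((h.1 (φ⁻¹ x) - h.1 x) / m + (k.1 (φ⁻¹ x) - k.1 x) / m)
        rw [e1, mul_add, e2, e3]
        change (h.1 (φ⁻¹ x) + k.1 (φ⁻¹ x)) - (h.1 x + k.1 x) = _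
        ring
      map_smul' := by
        intro r h
        apply Subtype.ext
        funext x
        apply mul_left_cancel₀ hm0
        have e1 := hq (r • h) x
        have e2 := hq h x
        change (m : ℤ) * (((r • h).1 (φ⁻¹ x) - (r • h).1 x) / m) =
          m * (r * ((h.1 (φ⁻¹ x) - h.1 x) / m))
        rw [e1, mul_left_comm, e2]
        change (r * h.1 (φ⁻¹ x)) - (r * h.1 x) = _
        ring }
  refine ⟨e, ?_⟩
  apply LinearMap.ext
  intro h
  apply Subtype.ext
  funext x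
  have e1 := hq h x
  have e2 : ((((rho hA c).comp θ) a) h).1 x = h.1 (φ⁻¹ x) := by
    rw [MonoidHom.comp_apply, ← hφ, rho_mk, rho0_apply]
  rw [e2]
  change h.1 (φ⁻¹ x) = h.1 x + (m : ℤ) * ((h.1 (φ⁻¹ x) - h.1 x) / m)
  rw [e1]
  ring

end Pool.Agent.U670.CV
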