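import Pool.Agent.U670.CV.Fld

/-!
# Homomorphisms from a commutative ring finite over `ℤ` to `ℂ`
-/

set_option autoImplicit false

namespace Pool.Agent.U670.CV

open scoped TensorProduct

variable {R : Type} [CommRing R]

/-- the homomorphisms to `ℂ` detect the elements which are not nilpotent -/
theorem exists_hom [Module.Finite ℤ R] [Module.Free ℤ R] (r : R) (hr : ¬ IsNilpotent r) :
    ∃ χ : R →+* ℂ, χ r ≠ 0 := by
  let T := ℂ ⊗[ℤ] R
  let i : R →ₐ[ℤ] T := Algebra.TensorProduct.includeRight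
  have hi : Function.Injective i := Algebra.TensorProduct.includeRight_injective
    (by
      intro a b h
      have h' : (a : ℂ) = (b : ℂ) := by simpa using h
      exact_mod_cast h')
  have h1 : ¬ IsNilpotent (i r) := by
    rintro ⟨n, hn⟩
    apply hr
    refine ⟨n, hi ?_⟩
    rw [map_pow, hn, map_zero]
  have hart : IsArtinianRing T := IsArtinianRing.of_finite ℂ T
  rw [nilpotent_iff_mem_prime] at h1
  push Not at h1
  obtain ⟨P, hP, hrP⟩ := h1
  have hmax : P.IsMaximal := IsArtinianRing.isMaximal_of_isPrime P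
  letI : Field (T ⧸ P) := Ideal.Quotient.field P
  have hfin : Module.Finite ℂ (T ⧸ P) := inferInstance
  have hb := IsAlgClosed.algebraMap_bijective_of_isIntegral (k := ℂ) (K := T ⧸ P)
  let e : ℂ ≃+* (T ⧸ P) := RingEquiv.ofBijective (algebraMap ℂ (T ⧸ P)) hb
  refine ⟨(e.symm : (T ⧸ P) →+* ℂ).comp ((Ideal.Quotient.mk P).comp (i : R →+* T)), ?_⟩
  intro h
  apply hrP
  have h2 : e.symm (Ideal.Quotient.mk P (i r)) = 0 := h
  rw [map_eq_zero_iff _ e.symm.injective] at h2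
  exact Ideal.Quotient.eq_zero_iff_mem.1 h2

theorem isIntegral_hom [Module.Finite ℤ R] (χ : R →+* ℂ) (r : R) : IsIntegral ℤ (χ r) := by
  have h : IsIntegral ℤ r := Algebra.IsIntegral.isIntegral r
  exact h.map χ.toIntAlgHom

theorem finite_homs [Module.Finite ℤ R] : Finite (R →+* ℂ) := by
  obtain ⟨S, hS⟩ := (inferInstance : Module.Finite ℤ R).fg_top
  have h1 : ∀ r : R, ∃ p : Polynomial ℤ, p.Monic ∧ Polynomial.aeval r p = 0 := fun r => by
    obtain ⟨p, hp, h⟩ := (Algebra.IsIntegral.isIntegral r : IsIntegral ℤ r)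
    exact ⟨p, hp, h⟩
  choose p hp hp0 using h1
  let f : (R →+* ℂ) → ((s : S) → (p s).rootSet ℂ) := fun χ s => ⟨χ s, by
    rw [Polynomial.mem_rootSet]
    refine ⟨(hp s).ne_zero, ?_⟩
    have h := congrArg χ.toIntAlgHom (hp0 s)
    rw [map_zero, ← Polynomial.aeval_algHom_apply] at h
    exact h⟩
  have hfin : ∀ s : S, Finite ((p s).rootSet ℂ) := fun s =>
    Set.Finite.to_subtype (Polynomial.rootSet_finite _ _)
  refine Finite.of_injective f ?_
  intro χ χ' h
  have h2 : χ.toIntAlgHom.toLinearMap = χ'.toIntAlgHom.toLinearMap := by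
    apply LinearMap.ext_on (s := (S : Set R)) hS
    intro s hs
    exact congrArg Subtype.val (congrFun h ⟨s, hs⟩)
  ext r
  exact LinearMap.congr_fun h2 r

/-- a Galois number field which contains the images -/
theorem exists_field [Module.Finite ℤ R] : ∃ L : IntermediateField ℚ ℂ, FiniteDimensional ℚ L ∧
    IsGalois ℚ L ∧ ∀ (χ : R →+* ℂ) (r : R), χ r ∈ L := by
  classical
  obtain ⟨S, hS⟩ := (inferInstance : Module.Finite ℤ R).fg_top
  have hfin : Finite (R →+* ℂ) := finite_homs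
  have : Fintype (R →+* ℂ) := Fintype.ofFinite _
  let T : Finset ℂ := Finset.univ.biUnion fun χ : R →+* ℂ => S.image χ
  obtain ⟨L, h1, h2, h3⟩ := exists_galois T (by
    intro x hx
    obtain ⟨χ, -, hx⟩ := Finset.mem_biUnion.1 hx
    obtain ⟨s, -, rfl⟩ := Finset.mem_image.1 hx
    exact (isIntegral_hom χ s).tower_top)
  refine ⟨L, h1, h2, fun χ r => ?_⟩
  have hr : r ∈ Submodule.span ℤ (S : Set R) := by rw [hS]; trivial
  induction hr using Submodule.span_induction with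
  | mem x hx =>
    exact h3 _ (Finset.mem_biUnion.2 ⟨χ, Finset.mem_univ _, Finset.mem_image_of_mem _ hx⟩)
  | zero => rw [map_zero]; exact L.zero_mem
  | add x y _ _ hx hy => rw [map_add]; exact L.add_mem hx hy
  | smul n x _ hx => rw [map_zsmul]; exact zsmul_mem hx n

/-- if all values of `r` are smaller than one then `r` is nilpotent -/
theorem nilpotent_of_small [Module.Finite ℤ R] [Module.Free ℤ R] (r : R)
    (h : ∀ χ : R →+* ℂ, ‖χ r‖ < 1) : IsNilpotent r := by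
  by_contra hr
  obtain ⟨χ, hχ⟩ := exists_hom r hr
  obtain ⟨L, h1, h2, h3⟩ := exists_field (R := R)
  let χL : R →+* L := χ.codRestrict L (h3 χ)
  let β : L := χL r
  have hβ : β ≠ 0 := fun h0 => hχ (congrArg Subtype.val h0)
  have hint : IsIntegral ℤ β :=
    (isIntegral_algebraMap_iff (R := ℤ) (A := L) (B := ℂ) Subtype.val_injective).1
      (isIntegral_hom χ r)
  have h4 : IsIntegral ℤ (Algebra.norm ℚ β) := Algebra.isIntegral_norm ℚ hint
  obtain ⟨z, hz⟩ := IsIntegrallyClosed.isIntegral_iff.1 h4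
  have h5 := Algebra.norm_eq_prod_automorphisms (K := ℚ) β
  rw [← hz] at h5
  have h6 : ‖((algebraMap ℚ L (algebraMap ℤ ℚ z) : L) : ℂ)‖ =
      ‖((∏ σ : Gal(L/ℚ), σ β : L) : ℂ)‖ := by rw [h5]
  have h7 : ‖((∏ σ : Gal(L/ℚ), σ β : L) : ℂ)‖ = ∏ σ : Gal(L/ℚ), ‖((σ β : L) : ℂ)‖ := by
    have e : ((∏ σ : Gal(L/ℚ), σ β : L) : ℂ) = ∏ σ : Gal(L/ℚ), ((σ β : L) : ℂ) :=
      map_prod (algebraMap L ℂ) _ _
    rw [e, norm_prod]
  have hpos : ∀ σ : Gal(L/ℚ), 0 < ‖((σ β : L) : ℂ)‖ := by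
    intro σ
    rw [norm_pos_iff]
    intro h0
    have h1 : σ β = 0 := Subtype.ext h0
    exact hβ ((map_eq_zero_iff _ σ.injective).1 h1)
  have hlt : ∀ σ : Gal(L/ℚ), ‖((σ β : L) : ℂ)‖ < 1 := fun σ =>
    h ((algebraMap L ℂ).comp ((σ : L →+* L).comp χL))
  have h8 : ∏ σ : Gal(L/ℚ), ‖((σ β : L) : ℂ)‖ < ∏ _σ : Gal(L/ℚ), (1 : ℝ) :=
    Finset.prod_lt_prod_of_nonempty (fun σ _ => hpos σ) (fun σ _ => hlt σ)
      ⟨1, Finset.mem_univ _⟩
  have h9 : 0 < ∏ σ : Gal(L/ℚ), ‖((σ β : L) : ℂ)‖ := Finset.prod_pos fun σ _ => hpos σ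
  rw [Finset.prod_const_one] at h8
  rw [h7] at h6
  have h10 : ((algebraMap ℚ L (algebraMap ℤ ℚ z) : L) : ℂ) = (z : ℂ) := by simp
  rw [h10] at h6
  rw [← h6, Complex.norm_intCast] at h8 h9
  have h11 : |z| < 1 := by exact_mod_cast h8
  have h12 : 0 < |z| := by exact_mod_cast h9
  omega

end Pool.Agent.U670.CV
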