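import Mathlib

/-!
# Galois number fields in `ℂ`
-/

set_option autoImplicit false

namespace Pool.Agent.U670.CV

open Polynomial

/-- a finite set of algebraic numbers is contained in a Galois number field in `ℂ` -/
theorem exists_galois (S : Finset ℂ) (hS : ∀ x ∈ S, IsIntegral ℚ x) :
    ∃ L : IntermediateField ℚ ℂ, FiniteDimensional ℚ L ∧ IsGalois ℚ L ∧ ∀ x ∈ S, x ∈ L := by
  classical
  let p : ℚ[X] := ∏ x ∈ S, minpoly ℚ x
  have hp0 : p ≠ 0 := Finset.prod_ne_zero_iff.2 fun x hx => minpoly.ne_zero (hS x hx)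
  have hsp : (p.map (algebraMap ℚ ℂ)).Splits := IsAlgClosed.splits _
  have : p.IsSplittingField ℚ (IntermediateField.adjoin ℚ (p.rootSet ℂ)) :=
    IntermediateField.adjoin_rootSet_isSplittingField hsp
  have h1 : FiniteDimensional ℚ (IntermediateField.adjoin ℚ (p.rootSet ℂ)) :=
    IsSplittingField.finiteDimensional _ p
  have h2 : Normal ℚ (IntermediateField.adjoin ℚ (p.rootSet ℂ)) := Normal.of_isSplittingField p
  refine ⟨_, h1, ⟨⟩, fun x hx => ?_⟩
  apply IntermediateField.subset_adjoin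
  rw [Polynomial.mem_rootSet]
  refine ⟨hp0, ?_⟩
  rw [map_prod]
  exact Finset.prod_eq_zero hx (minpoly.aeval ℚ x)

end Pool.Agent.U670.CV
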