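import Pool.Agent.U670.CV.Kum
import Pool.Agent.U670.CV.Fld

/-!
# Chevalley's theorem for the positive units of a real number field
-/

set_option autoImplicit false

namespace Pool.Agent.U670.CV

open NumberField

/-- every element of a Galois group is a Frobenius element at a large prime -/
def Frob : Prop := ∀ (L : Type) [Field L] [NumberField L] [IsGalois ℚ L] (g : Gal(L/ℚ)) (D : ℕ),
  ∃ p : ℕ, p.Prime ∧ D < p ∧ ∃ (k : Type) (_ : Field k) (_ : CharP k p) (φ : 𝓞 L →+* k),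
    ∀ x : 𝓞 L, φ (g • x) = φ x ^ p

/-- the positive real units of a subfield of `ℂ` -/
def PU (K : IntermediateField ℚ ℂ) : Subgroup ℂˣ where
  carrier := {u | (u : ℂ) ∈ K ∧ IsIntegral ℤ (u : ℂ) ∧ IsIntegral ℤ ((u⁻¹ : ℂˣ) : ℂ) ∧
    ∃ r : ℝ, 0 < r ∧ (u : ℂ) = r}
  one_mem' := ⟨by simpa using K.one_mem, by simpa using isIntegral_one,
    by simpa using isIntegral_one, 1, one_pos, by simp⟩
  mul_mem' := by
    rintro u v ⟨h1, h2, h3, r, hr, h4⟩ ⟨h1', h2', h3', r', hr', h4'⟩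
    refine ⟨by simpa using K.mul_mem h1 h1', by simpa using h2.mul h2', ?_, r * r',
      mul_pos hr hr', by simp [h4, h4']⟩
    rw [mul_inv, Units.val_mul]
    exact h3.mul h3'
  inv_mem' := by
    rintro u ⟨h1, h2, h3, r, hr, h4⟩
    refine ⟨?_, h3, by simpa using h2, r⁻¹, inv_pos.2 hr, ?_⟩
    · rw [Units.val_inv_eq_inv_val]
      exact K.inv_mem h1
    · rw [Units.val_inv_eq_inv_val, h4]
      simp

theorem smul_coe {L : Type} [Field L] [NumberField L] (σ : Gal(L/ℚ)) (x : 𝓞 L) :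
    ((σ • x : 𝓞 L) : L) = σ (x : L) := rfl

theorem key (hF : Frob) (K : IntermediateField ℚ ℂ) [FiniteDimensional ℚ K]
    (hK : ∀ x ∈ K, (starRingEnd ℂ) x = x) {N : ℕ} (hN : 0 < N) (u : ℂˣ) (hu : u ∈ PU K)
    (hno : ¬ ∃ v ∈ PU K, v ^ N = u) :
    ∃ m : ℕ, 0 < m ∧ ∀ w ∈ PU K,
      ¬ IsIntegral ℤ ((((u * w ^ (2 * N) : ℂˣ) : ℂ) - 1) / m) := by
  classical
  obtain ⟨hu1, hu2, hu3, r, hr, hur⟩ := hu
  have hn : 0 < 2 * N := by omega
  have hn0 : 2 * N ≠ 0 := hn.ne'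
  let s : ℝ := r ^ ((((2 * N : ℕ) : ℝ))⁻¹)
  have hs0 : 0 < s := Real.rpow_pos_of_pos hr _
  have hs : s ^ (2 * N) = r := Real.rpow_inv_natCast_pow hr.le hn0
  have hsC : (s : ℂ) ^ (2 * N) = u := by rw [hur, ← hs]; push_cast; rfl
  have hsi : IsIntegral ℤ (s : ℂ) := IsIntegral.of_pow hn (by rw [hsC]; exact hu2)
  have hsi' : IsIntegral ℤ ((s : ℂ)⁻¹) := by
    apply IsIntegral.of_pow hn
    rw [inv_pow, hsC, ← Units.val_inv_eq_inv_val]
    exact hu3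
  have hs0C : (s : ℂ) ≠ 0 := by exact_mod_cast hs0.ne'
  let ζ0 : ℂ := Complex.exp (2 * Real.pi * Complex.I / ((2 * N : ℕ) : ℂ))
  have hζ0 : IsPrimitiveRoot ζ0 (2 * N) := Complex.isPrimitiveRoot_exp _ hn0
  have hζi : IsIntegral ℤ ζ0 := hζ0.isIntegral hn
  let b := Module.finBasis ℚ K
  let S : Finset ℂ := (Finset.univ.image fun i => ((b i : K) : ℂ)) ∪ {(s : ℂ), ζ0}
  have hS : ∀ x ∈ S, IsIntegral ℚ x := by
    intro x hx
    rw [Finset.mem_union] at hx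
    rcases hx with hx | hx
    · obtain ⟨i, -, rfl⟩ := Finset.mem_image.1 hx
      exact (IsIntegral.of_finite ℚ (b i)).map K.val
    · rw [Finset.mem_insert, Finset.mem_singleton] at hx
      rcases hx with rfl | rfl
      · exact hsi.tower_top
      · exact hζi.tower_top
  obtain ⟨L, hL1, hL2, hL3⟩ := exists_galois S hS
  have : NumberField L := ⟨⟩
  have hKL : K ≤ L := by
    intro x hx
    have h1 : x = ∑ i, (b.repr ⟨x, hx⟩ i) • ((b i : K) : ℂ) := by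
      have h2 := congrArg K.val (b.sum_repr ⟨x, hx⟩)
      rw [map_sum] at h2
      exact h2.symm.trans (Finset.sum_congr rfl fun i _ => rfl)
    rw [h1]
    refine sum_mem fun i _ => ?_
    rw [Algebra.smul_def]
    refine L.mul_mem (L.algebraMap_mem _) (hL3 _ ?_)
    exact Finset.mem_union_left _ (Finset.mem_image_of_mem _ (Finset.mem_univ i))
  have hsL : (s : ℂ) ∈ L := hL3 _ (Finset.mem_union_right _ (by simp))
  have hζL : ζ0 ∈ L := hL3 _ (Finset.mem_union_right _ (by simp))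
  let K' : IntermediateField ℚ L := K.comap L.val
  have hK' : ∀ x : L, x ∈ K' ↔ (x : ℂ) ∈ K := fun x => Iff.rfl
  let c : Gal(L/ℚ) := (Complex.conjAe.restrictScalars ℚ).restrictNormal L
  have hc : ∀ x : L, ((c x : L) : ℂ) = (starRingEnd ℂ) (x : ℂ) := fun x =>
    (Complex.conjAe.restrictScalars ℚ).restrictNormal_commutes L x
  have hcH : c ∈ K'.fixingSubgroup := by
    rw [IntermediateField.mem_fixingSubgroup_iff]
    intro x hx
    apply Subtype.ext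
    rw [hc]
    exact hK _ hx
  let tL : L := ⟨(s : ℂ), hsL⟩
  let ζL : L := ⟨ζ0, hζL⟩
  have hζLp : IsPrimitiveRoot ζL (2 * N) :=
    IsPrimitiveRoot.of_map_of_injective (f := L.val) hζ0 Subtype.val_injective
  have hct : c tL = tL := by
    apply Subtype.ext
    rw [hc]
    exact Complex.conj_ofReal s
  have htn : ∀ σ ∈ K'.fixingSubgroup, σ (tL ^ (2 * N)) = tL ^ (2 * N) := by
    intro σ hσ
    rw [IntermediateField.mem_fixingSubgroup_iff] at hσ
    apply hσ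
    rw [hK']
    change (s : ℂ) ^ (2 * N) ∈ K
    rw [hsC]
    exact hu1
  have hs2 : (s : ℂ) ^ 2 ∉ K := by
    intro hs2
    apply hno
    refine ⟨Units.mk0 ((s : ℂ) ^ 2) (pow_ne_zero _ hs0C), ⟨hs2, hsi.pow 2, ?_, s ^ 2, by positivity,
      by simp⟩, ?_⟩
    · rw [Units.val_inv_eq_inv_val, Units.val_mk0, ← inv_pow]
      exact hsi'.pow 2
    · apply Units.ext
      rw [Units.val_pow_eq_pow_val, Units.val_mk0, ← pow_mul, hsC]
  obtain ⟨σ₀, hσ₀, h0⟩ : ∃ σ₀ ∈ K'.fixingSubgroup, σ₀ (tL ^ 2) ≠ tL ^ 2 := by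
    by_contra hcon
    push Not at hcon
    apply hs2
    have h1 : tL ^ 2 ∈ IntermediateField.fixedField K'.fixingSubgroup := by
      rw [IntermediateField.mem_fixedField_iff]
      exact hcon
    rw [IsGalois.fixedField_fixingSubgroup] at h1
    exact h1
  obtain ⟨σ, hσ, hσζ, hσt⟩ := exists_sigma (algebraMap L ℂ) K'.fixingSubgroup c hcH hc hn hζLp tL
    hct htn σ₀ hσ₀ h0
  obtain ⟨p, hp, hnp, k, _, _, φ, hφ⟩ := hF L σ (2 * N)
  have hInt : ∀ (x : ℂ) (hx : x ∈ L), IsIntegral ℤ x → IsIntegral ℤ (⟨x, hx⟩ : L) := by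
    intro x hx h
    exact (isIntegral_algebraMap_iff (R := ℤ) (A := L) (B := ℂ) Subtype.val_injective).1 h
  let tO : 𝓞 L := ⟨tL, hInt _ hsL hsi⟩
  let tO' : 𝓞 L := ⟨⟨(s : ℂ)⁻¹, L.inv_mem hsL⟩, hInt _ (L.inv_mem hsL) hsi'⟩
  let tU : (𝓞 L)ˣ := ⟨tO, tO', by
    apply RingOfIntegers.ext
    apply Subtype.ext
    exact mul_inv_cancel₀ hs0C, by
    apply RingOfIntegers.ext
    apply Subtype.ext
    exact inv_mul_cancel₀ hs0C⟩
  let ζO : 𝓞 L := ⟨ζL, hInt _ hζL hζi⟩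
  have hζO : IsPrimitiveRoot ζO (2 * N) :=
    IsPrimitiveRoot.of_map_of_injective (f := algebraMap (𝓞 L) L) hζLp
      RingOfIntegers.coe_injective
  have hpk : ((2 * N : ℕ) : k) ≠ 0 := by
    intro h
    rw [CharP.cast_eq_zero_iff k p] at h
    exact absurd (Nat.le_of_dvd hn h) (by omega)
  have hp0 : (p : ℂ) ≠ 0 := by exact_mod_cast hp.ne_zero
  refine ⟨p, hp.pos, ?_⟩
  rintro w ⟨hw1, hw2, hw3, -⟩ hint
  have hw0 : (w : ℂ) ≠ 0 := w.ne_zero
  have hwL : (w : ℂ) ∈ L := hKL hw1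
  let wO : 𝓞 L := ⟨⟨(w : ℂ), hwL⟩, hInt _ hwL hw2⟩
  have hzL : ((w⁻¹ : ℂˣ) : ℂ) ∈ L := by
    rw [Units.val_inv_eq_inv_val]
    exact L.inv_mem hwL
  have hzK : ((w⁻¹ : ℂˣ) : ℂ) ∈ K := by
    rw [Units.val_inv_eq_inv_val]
    exact K.inv_mem hw1
  let zO : 𝓞 L := ⟨⟨((w⁻¹ : ℂˣ) : ℂ), hzL⟩, hInt _ hzL hw3⟩
  have hβL : (((u * w ^ (2 * N) : ℂˣ) : ℂ) - 1) / p ∈ L := by
    refine L.div_mem (L.sub_mem ?_ L.one_mem) (natCast_mem L p)
    rw [Units.val_mul, Units.val_pow_eq_pow_val]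
    exact L.mul_mem (hKL hu1) (pow_mem hwL _)
  let β : 𝓞 L := ⟨⟨_, hβL⟩, hInt _ hβL hint⟩
  have e1 : tO ^ (2 * N) * wO ^ (2 * N) = 1 + (p : 𝓞 L) * β := by
    apply RingOfIntegers.ext
    apply Subtype.ext
    change (s : ℂ) ^ (2 * N) * (w : ℂ) ^ (2 * N) =
      1 + (p : ℂ) * ((((u * w ^ (2 * N) : ℂˣ) : ℂ) - 1) / p)
    rw [mul_div_cancel₀ _ hp0, hsC, Units.val_mul, Units.val_pow_eq_pow_val]
    ring
  have e2 : wO * zO = 1 := by
    apply RingOfIntegers.ext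
    apply Subtype.ext
    change (w : ℂ) * ((w⁻¹ : ℂˣ) : ℂ) = 1
    exact w.mul_inv
  have hz : σ • zO = zO := by
    apply RingOfIntegers.ext
    rw [smul_coe]
    rw [IntermediateField.mem_fixingSubgroup_iff] at hσ
    exact hσ _ hzK
  refine frob_key φ σ hφ hn hpk hζO ?_ tU ?_ ?_ zO hz ?_
  · apply RingOfIntegers.ext
    rw [smul_coe]
    exact hσζ
  · intro h
    apply hσt
    have := congrArg (algebraMap (𝓞 L) L) h
    exact this
  · apply RingOfIntegers.ext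
    rw [smul_coe]
    exact htn σ hσ
  · change φ (tO ^ (2 * N)) = φ zO ^ (2 * N)
    have e3 := congrArg φ e1
    rw [map_mul, map_add, map_one, map_mul, map_natCast, CharP.cast_eq_zero, zero_mul,
      add_zero, map_pow φ wO] at e3
    have e4 : φ wO * φ zO = 1 := by rw [← map_mul, e2, map_one]
    have e5 : (φ wO) ^ (2 * N) * (φ zO) ^ (2 * N) = 1 := by rw [← mul_pow, e4, one_pow]
    calc φ (tO ^ (2 * N)) = φ (tO ^ (2 * N)) * ((φ wO) ^ (2 * N) * (φ zO) ^ (2 * N)) := by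
          rw [e5, mul_one]
      _ = φ zO ^ (2 * N) := by rw [← mul_assoc, e3, one_mul]

end Pool.Agent.U670.CV
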