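import Pool.Agent.U670.CV.Chev
import Pool.Agent.U670.CV.Ab

/-!
# Chevalley's theorem for the positive units of a real number field
-/

set_option autoImplicit false

namespace Pool.Agent.U670.CV

open NumberField

/-- the units of `K` -/
noncomputable def toUnits (K : IntermediateField ℚ ℂ) [NumberField K] : PU K →* (𝓞 K)ˣ where
  toFun u :=
    { val := ⟨⟨((u : ℂˣ) : ℂ), u.2.1⟩,
        (isIntegral_algebraMap_iff (R := ℤ) (A := K) (B := ℂ) Subtype.val_injective).1 u.2.2.1⟩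
      inv := ⟨⟨(((u : ℂˣ)⁻¹ : ℂˣ) : ℂ), by
          rw [Units.val_inv_eq_inv_val]; exact K.inv_mem u.2.1⟩,
        (isIntegral_algebraMap_iff (R := ℤ) (A := K) (B := ℂ) Subtype.val_injective).1 u.2.2.2.1⟩
      val_inv := by
        apply RingOfIntegers.ext
        apply Subtype.ext
        exact (u : ℂˣ).mul_inv
      inv_val := by
        apply RingOfIntegers.ext
        apply Subtype.ext
        exact (u : ℂˣ).inv_mul }
  map_one' := by
    apply Units.ext
    apply RingOfIntegers.ext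
    apply Subtype.ext
    rfl
  map_mul' u v := by
    apply Units.ext
    apply RingOfIntegers.ext
    apply Subtype.ext
    rfl

theorem toUnits_injective (K : IntermediateField ℚ ℂ) [NumberField K] :
    Function.Injective (toUnits K) := by
  intro u v h
  apply Subtype.ext
  apply Units.ext
  have h1 := congrArg (fun w : (𝓞 K)ˣ => (((w : 𝓞 K) : K) : ℂ)) h
  exact h1

theorem pu_fg (K : IntermediateField ℚ ℂ) [FiniteDimensional ℚ K] : Group.FG (PU K) := by
  have : NumberField K := ⟨⟩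
  have h1 : Monoid.FG (𝓞 K)ˣ := inferInstance
  have h2 : Group.FG (𝓞 K)ˣ := Group.fg_iff_monoid_fg.2 h1
  exact fg_of_inj (toUnits K) (toUnits_injective K)

/-- **Chevalley's theorem** for the positive units of a real number field. -/
theorem chev (hF : Frob) (K : IntermediateField ℚ ℂ) [FiniteDimensional ℚ K]
    (hK : ∀ x ∈ K, (starRingEnd ℂ) x = x) {N : ℕ} (hN : 0 < N) :
    ∃ m : ℕ, 0 < m ∧ ∀ u ∈ PU K, IsIntegral ℤ ((((u : ℂˣ) : ℂ) - 1) / m) →
      ∃ v ∈ PU K, v ^ N = u := by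
  classical
  have hfg := pu_fg K
  have hfin : Finite (PU K ⧸ (powMonoidHom (2 * N) : PU K →* PU K).range) :=
    finite_quot (by omega)
  have : Fintype (PU K ⧸ (powMonoidHom (2 * N) : PU K →* PU K).range) := Fintype.ofFinite _
  have h1 : ∀ q : PU K ⧸ (powMonoidHom (2 * N) : PU K →* PU K).range, ∃ m : ℕ, 0 < m ∧
      ((∃ v ∈ PU K, v ^ N = ((Quotient.out q : PU K) : ℂˣ)) ∨ ∀ w ∈ PU K,
        ¬ IsIntegral ℤ ((((((Quotient.out q : PU K) : ℂˣ) * w ^ (2 * N) : ℂˣ) : ℂ) - 1) / m)) := by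
    intro q
    by_cases h : ∃ v ∈ PU K, v ^ N = ((Quotient.out q : PU K) : ℂˣ)
    · exact ⟨1, one_pos, Or.inl h⟩
    · obtain ⟨m, hm, h2⟩ := key hF K hK hN _ (Quotient.out q : PU K).2 h
      exact ⟨m, hm, Or.inr h2⟩
  choose m hm h2 using h1
  refine ⟨∏ q, m q, Finset.prod_pos fun q _ => hm q, ?_⟩
  intro u hu hint
  let q : PU K ⧸ (powMonoidHom (2 * N) : PU K →* PU K).range := QuotientGroup.mk ⟨u, hu⟩
  have h3 : QuotientGroup.mk (Quotient.out q) = (QuotientGroup.mk ⟨u, hu⟩ : PU K ⧸ _) :=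
    QuotientGroup.out_eq' q
  obtain ⟨w, hw⟩ := QuotientGroup.eq.1 h3
  have hw' : ((Quotient.out q : PU K) : ℂˣ) * (w : ℂˣ) ^ (2 * N) = u := by
    have h4 : (Quotient.out q) * (w ^ (2 * N)) = ⟨u, hu⟩ := by
      rw [← powMonoidHom_apply, hw, mul_inv_cancel_left]
    exact congrArg Subtype.val h4
  rcases h2 q with ⟨v, hv, hvN⟩ | h4
  · refine ⟨v * (w : ℂˣ) ^ 2, (PU K).mul_mem hv ((PU K).pow_mem w.2 _), ?_⟩
    rw [mul_pow, hvN, ← pow_mul, hw']
  · exfalso
    apply h4 w w.2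
    rw [hw']
    obtain ⟨d, hd⟩ : m q ∣ ∏ q, m q := Finset.dvd_prod_of_mem m (Finset.mem_univ q)
    have hm0 : ((m q : ℕ) : ℂ) ≠ 0 := by exact_mod_cast (hm q).ne'
    have hP0 : ((∏ q, m q : ℕ) : ℂ) ≠ 0 := by
      exact_mod_cast (Finset.prod_pos fun q _ => hm q).ne'
    have hd0 : (d : ℂ) ≠ 0 := by
      intro h
      apply hP0
      rw [hd, Nat.cast_mul, h, mul_zero]
    have h5 : (((u : ℂˣ) : ℂ) - 1) / (m q : ℂ) =
        (d : ℂ) * ((((u : ℂˣ) : ℂ) - 1) / ((∏ q, m q : ℕ) : ℂ)) := by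
      rw [hd, Nat.cast_mul]
      field_simp
    rw [h5]
    exact (isIntegral_algebraMap (R := ℤ) (x := (d : ℤ))).mul hint

end Pool.Agent.U670.CV
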