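import Pool.Agent.U670.CV.Ring

/-!
# Abelian groups of automorphisms of finitely generated free abelian groups
-/

set_option autoImplicit false

namespace Pool.Agent.U670.CV

section

variable {M : Type} [AddCommGroup M]

/-- the double centralizer of a set of endomorphisms -/
def Cen (S : Set (Module.End ℤ M)) : Subring (Module.End ℤ M) :=
  Subring.centralizer (Subring.centralizer S : Subring (Module.End ℤ M))

theorem mem_Cen {S : Set (Module.End ℤ M)} {z : Module.End ℤ M} :
    z ∈ Cen S ↔ ∀ g ∈ Subring.centralizer S, g * z = z * g := Subring.mem_centralizer_iff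

theorem Cen_comm {S : Set (Module.End ℤ M)} (hS : ∀ x ∈ S, ∀ y ∈ S, x * y = y * x)
    (a b : Cen S) : a * b = b * a := by
  apply Subtype.ext
  have h1 : (a : Module.End ℤ M) ∈ Subring.centralizer S := by
    rw [Subring.mem_centralizer_iff]
    intro x hx
    refine mem_Cen.1 a.2 x ?_
    rw [Subring.mem_centralizer_iff]
    intro y hy
    exact hS y hy x hx
  exact mem_Cen.1 b.2 a h1

theorem Cen_self {S : Set (Module.End ℤ M)} {x : Module.End ℤ M} (hx : x ∈ S) : x ∈ Cen S := by
  rw [mem_Cen]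
  intro g hg
  exact (Subring.mem_centralizer_iff.1 hg x hx).symm

/-- the commutative ring -/
abbrev cring {S : Set (Module.End ℤ M)} (hS : ∀ x ∈ S, ∀ y ∈ S, x * y = y * x) :
    CommRing (Cen S) :=
  { (inferInstance : Ring (Cen S)) with mul_comm := Cen_comm hS }

theorem end_csp (hF : Frob) {A : Type} [CommGroup A] [Module.Finite ℤ M] [Module.Free ℤ M]
    (ρ : A →* Module.End ℤ M) (V : Subgroup A) (hV : V.FiniteIndex) (hker : ρ.ker ≤ V) :
    ∃ m : ℕ, 0 < m ∧ ∀ a : A, (∃ e : Module.End ℤ M, ρ a = 1 + (m : ℤ) • e) → a ∈ V := by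
  let S : Set (Module.End ℤ M) := Set.range ρ
  have hS : ∀ x ∈ S, ∀ y ∈ S, x * y = y * x := by
    rintro _ ⟨a, rfl⟩ _ ⟨b, rfl⟩
    rw [← map_mul, mul_comm, map_mul]
  letI : CommRing (Cen S) := cring hS
  have hnoe : IsNoetherian ℤ (Module.End ℤ M) := inferInstance
  have hfree : Module.IsTorsionFree ℤ (Module.End ℤ M) := inferInstance
  let incl : Cen S →ₗ[ℤ] Module.End ℤ M := (Cen S).subtype.toIntAlgHom.toLinearMap
  have hincl : Function.Injective incl := Subtype.val_injective
  have h1 : IsNoetherian ℤ (Cen S) := isNoetherian_of_injective incl hincl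
  have h2 : Module.Finite ℤ (Cen S) := inferInstance
  have h3 : Module.IsTorsionFree ℤ (Cen S) := hincl.moduleIsTorsionFree _ (map_smul incl)
  have h4 : Module.Free ℤ (Cen S) := inferInstance
  let ρ' : A →* Cen S :=
    { toFun := fun a => ⟨ρ a, Cen_self ⟨a, rfl⟩⟩
      map_one' := Subtype.ext (map_one ρ)
      map_mul' := fun a b => Subtype.ext (map_mul ρ a b) }
  have hker' : ρ'.ker ≤ V := by
    intro a ha
    apply hker
    exact congrArg Subtype.val ha
  obtain ⟨m, hm, h5⟩ := good_all hF ρ' V hV hker'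
  refine ⟨m, hm, ?_⟩
  rintro a ⟨e, he⟩
  apply h5
  refine ⟨?_, trivial⟩
  have heC : e ∈ Cen S := by
    rw [mem_Cen]
    intro g hg
    have h6 : g * ρ a = ρ a * g := (Subring.mem_centralizer_iff.1 hg (ρ a) ⟨a, rfl⟩).symm
    rw [he, mul_add, add_mul, mul_one, one_mul, mul_smul_comm, smul_mul_assoc] at h6
    have h7 := add_left_cancel h6
    have hm0 : (m : ℤ) ≠ 0 := by exact_mod_cast hm.ne'
    exact smul_right_injective _ hm0 h7
  refine ⟨⟨e, heC⟩, ?_⟩
  apply Subtype.ext
  change ρ a = 1 + (m : Module.End ℤ M) * e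
  rw [he, zsmul_eq_mul, Int.cast_natCast]

end

/-- a filtration of a finitely generated abelian group with torsion-free quotients and trivial
intersection terminates -/
theorem filt {A : Type} [CommGroup A] [Group.FG A] (K : ℕ → Subgroup A)
    (h1 : ∀ c, K (c + 1) ≤ K c)
    (h2 : ∀ c, 2 ≤ c → ∀ a ∈ K c, ∀ k : ℕ, 0 < k → a ^ k ∈ K (c + 1) → a ∈ K (c + 1))
    (h3 : ∀ a, (∀ c, a ∈ K c) → a = 1) : ∃ c, K c = ⊥ := by
  have hfin : Module.Finite ℤ (Additive A) := Module.Finite.iff_addGroup_fg.2 inferInstance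
  let N : ℕ → Submodule ℤ (Additive A) := fun c =>
    AddSubgroup.toIntSubmodule (Subgroup.toAddSubgroup (K c))
  have hN : ∀ c (a : A), Additive.ofMul a ∈ N c ↔ a ∈ K c := fun c a => Iff.rfl
  have hle : ∀ c, N (c + 1) ≤ N c := fun c x hx => h1 c hx
  have hfN : ∀ c, Module.Finite ℤ (N c) := fun c => inferInstance
  have hanti : Antitone fun c => Module.finrank ℤ (N c) :=
    antitone_nat_of_succ_le fun c => Submodule.finrank_mono (hle c)
  let c0 := Function.argmin fun c => Module.finrank ℤ (N c)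
  have hc0 : ∀ c, Module.finrank ℤ (N c0) ≤ Module.finrank ℤ (N c) := fun c =>
    Function.argmin_le (fun c => Module.finrank ℤ (N c)) c
  have hstep : ∀ c, c0 ≤ c → 2 ≤ c → K c ≤ K (c + 1) := by
    intro c hc hc2 a ha
    have e1 : Module.finrank ℤ (N (c + 1)) = Module.finrank ℤ (N c) :=
      le_antisymm (hanti (Nat.le_succ c)) ((hanti hc).trans (hc0 _))
    have e2 := Submodule.finrank_quotient_add_finrank ((N (c + 1)).submoduleOf (N c))
    have e3 : Module.finrank ℤ ((N (c + 1)).submoduleOf (N c)) = Module.finrank ℤ (N (c + 1)) :=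
      LinearEquiv.finrank_eq (Submodule.submoduleOfEquivOfLe (hle c))
    have e4 : Module.finrank ℤ ((N c) ⧸ (N (c + 1)).submoduleOf (N c)) = 0 := by omega
    rw [Module.finrank_eq_zero_iff_isTorsion] at e4
    obtain ⟨z, hz⟩ := @e4 (Submodule.Quotient.mk ⟨Additive.ofMul a, ha⟩)
    have hz0 : (z : ℤ) ≠ 0 := nonZeroDivisors.coe_ne_zero z
    have hz1 : (z : ℤ) • (Submodule.Quotient.mk ⟨Additive.ofMul a, ha⟩ :
      (N c) ⧸ (N (c + 1)).submoduleOf (N c)) = 0 := hz
    rw [← Submodule.Quotient.mk_smul, Submodule.Quotient.mk_eq_zero] at hz1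
    have hz2 : a ^ (z : ℤ) ∈ K (c + 1) := hz1
    refine h2 c hc2 a ha (z : ℤ).natAbs (Int.natAbs_pos.2 hz0) ?_
    rcases Int.natAbs_eq (z : ℤ) with h | h
    · rw [h, zpow_natCast] at hz2
      exact hz2
    · rw [h, zpow_neg, zpow_natCast] at hz2
      exact inv_mem_iff.1 hz2
  refine ⟨max c0 2, ?_⟩
  rw [eq_bot_iff]
  intro a ha
  rw [Subgroup.mem_bot]
  apply h3
  have hup : ∀ d, a ∈ K (max c0 2 + d) := by
    intro d
    induction d with
    | zero => exact ha
    | succ d ih => exact hstep _ ((le_max_left c0 2).trans (Nat.le_add_right _ d)) ((le_max_right c0 2).trans (Nat.le_add_right _ d)) ih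
  have hKanti : Antitone K := antitone_nat_of_succ_le h1
  intro c
  exact hKanti (Nat.le_add_left c (max c0 2)) (hup c)

end Pool.Agent.U670.CV
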