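import Pool.Agent.U670.CV.Tr

/-!
# Automorphisms of free groups which fix the polynomial class functions are inner
-/

set_option autoImplicit false

namespace Pool.Agent.U670.CV

variable {I : Type}

theorem wd_nil : wd ([] : List (I × ℤ)) = 1 := by simp [wd]

theorem wd_cons (p : I × ℤ) (L : List (I × ℤ)) :
    wd (p :: L) = FreeGroup.of p.1 ^ p.2 * wd L := by simp [wd]

theorem wd_append (L L' : List (I × ℤ)) : wd (L ++ L') = wd L * wd L' := by simp [wd]

/-- the inverse word -/
def iv (L : List (I × ℤ)) : List (I × ℤ) := (L.map fun p => (p.1, -p.2)).reverse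

theorem wd_iv (L : List (I × ℤ)) : wd (iv L) = (wd L)⁻¹ := by
  induction L with
  | nil => simp [iv, wd]
  | cons p L ih =>
    have h : iv (p :: L) = iv L ++ [(p.1, -p.2)] := by simp [iv]
    rw [h, wd_append, ih, wd_cons, wd_cons, wd_nil, mul_one, mul_inv_rev, zpow_neg]

theorem wd_surj (g : FreeGroup I) : ∃ L, wd L = g := by
  induction g using FreeGroup.induction_on with
  | C1 => exact ⟨[], wd_nil⟩
  | of j => exact ⟨[(j, 1)], by simp [wd]⟩
  | inv_of j _ => exact ⟨[(j, -1)], by simp [wd]⟩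
  | mul x y hx hy =>
    obtain ⟨L, rfl⟩ := hx
    obtain ⟨L', rfl⟩ := hy
    exact ⟨L ++ L', wd_append _ _⟩

/-- reduced words -/
def Rd (L : List (I × ℤ)) : Prop :=
  (∀ p ∈ L, p.2 ≠ 0) ∧ L.IsChain (fun p q => p.1 ≠ q.1)

/-- cyclically reduced words -/
def CR (L : List (I × ℤ)) : Prop :=
  Rd L ∧ ∀ x ∈ L.getLast?, ∀ y ∈ L.head?, x.1 ≠ y.1

/-- a word which cannot be shortened is reduced -/
theorem rd_of_min (L : List (I × ℤ)) (h : ∀ L' : List (I × ℤ), L'.length < L.length →
    wd L' ≠ wd L) : Rd L := by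
  constructor
  · intro p hp h0
    obtain ⟨L1, L2, rfl⟩ := List.append_of_mem hp
    refine h (L1 ++ L2) (by simp) ?_
    rw [wd_append, wd_append, wd_cons, h0, zpow_zero, one_mul]
  · rw [List.isChain_iff_forall_rel_of_append_cons_cons]
    intro a b L1 L2 hL hab
    subst hL
    refine h (L1 ++ (a.1, a.2 + b.2) :: L2) (by simp) ?_
    rw [wd_append, wd_append, wd_cons, wd_cons, wd_cons, hab, zpow_add, mul_assoc]

theorem exists_CR (y : FreeGroup I) : ∃ (g : FreeGroup I) (L : List (I × ℤ)),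
    y = g * wd L * g⁻¹ ∧ (L.length ≤ 1 ∨ (2 ≤ L.length ∧ CR L)) := by
  classical
  let P : ℕ → Prop := fun n => ∃ (g : FreeGroup I) (L : List (I × ℤ)), L.length = n ∧
    y = g * wd L * g⁻¹
  have hP : ∃ n, P n := by
    obtain ⟨L, hL⟩ := wd_surj y
    exact ⟨L.length, 1, L, rfl, by simp [hL]⟩
  obtain ⟨g, L, hn, hy⟩ := Nat.find_spec hP
  have hmin : ∀ m, m < L.length → ¬ P m := by
    intro m hm
    rw [hn] at hm
    exact Nat.find_min hP hm
  refine ⟨g, L, hy, ?_⟩
  by_cases h1 : L.length ≤ 1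
  · exact Or.inl h1
  right
  refine ⟨by omega, rd_of_min L ?_, ?_⟩
  · intro L' hL' h
    exact hmin _ hL' ⟨g, L', rfl, by rw [h, hy]⟩
  · intro x hx z hz hxz
    cases L with
    | nil => simp at h1
    | cons p T =>
      have hpz : p = z := by simpa using hz
      subst hpz
      have hT : T ≠ [] := by rintro rfl; simp at h1
      obtain ⟨T', q, rfl⟩ := (List.eq_nil_or_concat T).resolve_left hT
      have hqx : q = x := by
        have e : p :: T'.concat q = (p :: T') ++ [q] := by simp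
        rw [e, List.getLast?_append] at hx
        simpa using hx
      subst hqx
      refine hmin (T' ++ [(q.1, q.2 + p.2)]).length (by simp) ⟨g * FreeGroup.of p.1 ^ p.2,
        T' ++ [(q.1, q.2 + p.2)], rfl, ?_⟩
      rw [hy, wd_cons, List.concat_eq_append, wd_append, wd_append, wd_cons, wd_cons, wd_nil, hxz,
        zpow_add]
      group

theorem double_coset {a b : I} (g : FreeGroup I) :
    ∃ (n : ℤ) (W : List (I × ℤ)), g * FreeGroup.of b * g⁻¹ =
      FreeGroup.of a ^ n * (wd W * FreeGroup.of b * (wd W)⁻¹) * (FreeGroup.of a ^ n)⁻¹ ∧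
      Rd W ∧ (∀ x ∈ W.head?, x.1 ≠ a) ∧ (∀ x ∈ W.getLast?, x.1 ≠ b) := by
  classical
  let P : ℕ → Prop := fun m => ∃ (n : ℤ) (W : List (I × ℤ)), W.length = m ∧
    g * FreeGroup.of b * g⁻¹ =
      FreeGroup.of a ^ n * (wd W * FreeGroup.of b * (wd W)⁻¹) * (FreeGroup.of a ^ n)⁻¹
  have hP : ∃ m, P m := by
    obtain ⟨L, hL⟩ := wd_surj g
    exact ⟨L.length, 0, L, rfl, by simp [hL]⟩
  obtain ⟨n, W, hn, hy⟩ := Nat.find_spec hP
  have hmin : ∀ m, m < W.length → ¬ P m := by
    intro m hm
    rw [hn] at hm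
    exact Nat.find_min hP hm
  refine ⟨n, W, hy, rd_of_min W ?_, ?_, ?_⟩
  · intro L' hL' h
    exact hmin _ hL' ⟨n, L', rfl, by rw [h, hy]⟩
  · intro x hx hxa
    cases W with
    | nil => simp at hx
    | cons p T =>
      have hpz : p = x := by simpa using hx
      subst hpz
      refine hmin T.length (by simp) ⟨n + p.2, T, rfl, ?_⟩
      rw [hy, wd_cons, hxa, zpow_add]
      group
  · intro x hx hxb
    have hT : W ≠ [] := by rintro rfl; simp at hx
    obtain ⟨T', q, rfl⟩ := (List.eq_nil_or_concat W).resolve_left hT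
    have hqx : q = x := by simpa using hx
    subst hqx
    refine hmin T'.length (by simp) ⟨n, T', rfl, ?_⟩
    rw [hy, List.concat_eq_append, wd_append, wd_cons, wd_nil, hxb]
    group

/-- `φ` fixes the polynomial class functions -/
def Tv (φ : MulAut (FreeGroup I)) : Prop :=
  ∀ c, ∀ h ∈ CF (FreeGroup I) c, ∀ x, h (φ x) = h x

theorem class_conj {G : Type} [Group G] {c : ℕ} {h : G → ℤ} (hh : h ∈ CF G c) (u x : G) :
    h (u * x * u⁻¹) = h x := by
  rw [mul_assoc, hh.2, mul_assoc, inv_mul_cancel, mul_one]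

theorem Tv.conj {φ : MulAut (FreeGroup I)} (hφ : Tv φ) (g : FreeGroup I) :
    Tv (MulAut.conj g * φ) := by
  intro c h hh x
  rw [MulAut.mul_apply, MulAut.conj_apply, class_conj hh, hφ c h hh]

theorem conflict [DecidableEq I] {φ : MulAut (FreeGroup I)} (hφ : Tv φ) {u : FreeGroup I}
    {L L' : List (I × ℤ)} (h1 : φ (wd L') = u * wd L * u⁻¹) (h2 : CR L) (h3 : 2 ≤ L.length)
    (h4 : L'.length < L.length) : False := by
  obtain ⟨c, h, hh, h5, h6⟩ := sep L h3 h2.1.1 h2.1.2 h2.2
  apply h5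
  rw [← class_conj hh u, ← h1, hφ c h hh, h6 L' h4]

theorem hom_mem {G : Type} [Group G] (f : G →* Multiplicative ℤ) :
    (fun x => Multiplicative.toAdd (f x)) ∈ CF G 2 := by
  constructor
  · intro g g'
    rw [mem_zero]
    funext x
    simp [Dl]
  · intro x y
    simp [add_comm]

/-- the exponent sum -/
def ex [DecidableEq I] (k : I) : FreeGroup I →* Multiplicative ℤ :=
  FreeGroup.lift fun j => if j = k then Multiplicative.ofAdd 1 else 1

theorem tv_gen [DecidableEq I] {φ : MulAut (FreeGroup I)} (hφ : Tv φ) (j : I) :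
    ∃ g, φ (FreeGroup.of j) = g * FreeGroup.of j * g⁻¹ := by
  obtain ⟨g, L, h1, h2⟩ := exists_CR (φ (FreeGroup.of j))
  have hj : wd [(j, (1 : ℤ))] = FreeGroup.of j := by simp [wd]
  rcases h2 with h2 | ⟨h2, h3⟩
  · have h4 := hφ 2 _ (hom_mem (ex j)) (FreeGroup.of j)
    have h5 : Multiplicative.toAdd (ex j (FreeGroup.of j)) = 1 := by simp [ex]
    rw [h5] at h4
    cases L with
    | nil =>
      rw [h1, wd_nil] at h4
      simp at h4
    | cons p T =>
      have hT : T = [] := by
        cases T with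
        | nil => rfl
        | cons q T => simp at h2
      subst hT
      rw [h1, wd_cons, wd_nil, mul_one] at h4
      have h6 : Multiplicative.toAdd (ex j (g * FreeGroup.of p.1 ^ p.2 * g⁻¹)) =
          p.2 * Multiplicative.toAdd (ex j (FreeGroup.of p.1)) := by
        simp only [map_mul, map_inv, map_zpow, toAdd_mul, toAdd_inv, toAdd_zpow, smul_eq_mul]
        ring
      rw [h6] at h4
      by_cases h7 : p.1 = j
      · have h8 : Multiplicative.toAdd (ex j (FreeGroup.of p.1)) = 1 := by simp [ex, h7]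
        rw [h8, mul_one] at h4
        refine ⟨g, ?_⟩
        rw [h1, wd_cons, wd_nil, mul_one, h4, zpow_one, h7]
      · have h8 : Multiplicative.toAdd (ex j (FreeGroup.of p.1)) = 0 := by simp [ex, h7]
        rw [h8, mul_zero] at h4
        exact absurd h4 (by norm_num)
  · exfalso
    refine conflict hφ (L' := [(j, (1 : ℤ))]) (by rw [hj]; exact h1) h3 h2 ?_
    simp only [List.length_singleton]
    omega

theorem head_iv (W : List (I × ℤ)) : ∀ y ∈ (iv W).head?, ∃ x ∈ W.getLast?, y.1 = x.1 := by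
  intro y hy
  rw [iv, List.head?_reverse, List.getLast?_map] at hy
  obtain ⟨x, hx, rfl⟩ := Option.map_eq_some_iff.1 hy
  exact ⟨x, hx, rfl⟩

theorem last_iv (W : List (I × ℤ)) : ∀ y ∈ (iv W).getLast?, ∃ x ∈ W.head?, y.1 = x.1 := by
  intro y hy
  rw [iv, List.getLast?_reverse, List.head?_map] at hy
  obtain ⟨x, hx, rfl⟩ := Option.map_eq_some_iff.1 hy
  exact ⟨x, hx, rfl⟩

theorem CR_big {a b : I} (hab : a ≠ b) {W : List (I × ℤ)} (hW : Rd W)
    (h1 : ∀ x ∈ W.head?, x.1 ≠ a) (h2 : ∀ x ∈ W.getLast?, x.1 ≠ b) (hne : W ≠ []) :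
    CR ((a, (1 : ℤ)) :: (W ++ (b, (1 : ℤ)) :: iv W)) := by
  have hch : (iv W).IsChain (fun p q => p.1 ≠ q.1) := by
    rw [iv, List.isChain_reverse, List.isChain_map]
    exact hW.2.imp fun p q h => h.symm
  refine ⟨⟨?_, ?_⟩, ?_⟩
  · intro p hp
    simp only [List.mem_cons, List.mem_append, iv, List.mem_reverse, List.mem_map] at hp
    rcases hp with rfl | hp | rfl | ⟨q, hq, rfl⟩
    · exact one_ne_zero
    · exact hW.1 p hp
    · exact one_ne_zero
    · exact neg_ne_zero.2 (hW.1 q hq)
  · rw [List.isChain_cons]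
    constructor
    · intro y hy
      rw [List.head?_append_of_ne_nil _ hne] at hy
      exact (h1 y hy).symm
    · rw [List.isChain_append]
      refine ⟨hW.2, ?_, ?_⟩
      · rw [List.isChain_cons]
        refine ⟨?_, hch⟩
        intro y hy
        obtain ⟨x, hx, hxy⟩ := head_iv W y hy
        rw [hxy]
        exact (h2 x hx).symm
      · intro x hx y hy
        have hy' : y = (b, 1) := by simpa using hy.symm
        rw [hy']
        exact h2 x hx
  · intro x hx y hy
    have hy' : y = (a, 1) := by simpa using hy.symm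
    rw [hy']
    have hiv : iv W ≠ [] := by
      intro h
      apply hne
      have := congrArg List.length h
      simp [iv] at this
      exact this
    have e : (a, (1 : ℤ)) :: (W ++ (b, (1 : ℤ)) :: iv W) =
        ((a, (1 : ℤ)) :: (W ++ [(b, (1 : ℤ))])) ++ iv W := by simp
    rw [e, List.getLast?_append_of_ne_nil _ hiv] at hx
    obtain ⟨z, hz, hxz⟩ := last_iv W x hx
    rw [hxz]
    exact h1 z hz

theorem tv_inner [DecidableEq I] {a b : I} (hab : a ≠ b) {φ : MulAut (FreeGroup I)} (hφ : Tv φ) :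
    ∃ g, φ = MulAut.conj g := by
  obtain ⟨g, hg⟩ := tv_gen hφ a
  have hφ1 := hφ.conj g⁻¹
  have ha1 : (MulAut.conj g⁻¹ * φ) (FreeGroup.of a) = FreeGroup.of a := by
    rw [MulAut.mul_apply, MulAut.conj_apply, hg]
    group
  generalize hψ : MulAut.conj g⁻¹ * φ = ψ at hφ1 ha1
  have key : ∀ j, j ≠ a → ∃ n : ℤ, ψ (FreeGroup.of j) =
      FreeGroup.of a ^ n * FreeGroup.of j * (FreeGroup.of a ^ n)⁻¹ := by
    intro j hj
    obtain ⟨g', hg'⟩ := tv_gen hφ1 j
    obtain ⟨n, W, h1, hW, h2, h3⟩ := double_coset (a := a) (b := j) g'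
    refine ⟨n, ?_⟩
    by_cases hWn : W = []
    · rw [hg', h1, hWn, wd_nil, one_mul, inv_one, mul_one]
    · exfalso
      refine conflict hφ1 (u := FreeGroup.of a ^ n)
        (L := (a, (1 : ℤ)) :: (W ++ (j, (1 : ℤ)) :: iv W)) (L' := [(a, (1 : ℤ)), (j, (1 : ℤ))])
        ?_ (CR_big hj.symm hW h2 h3 hWn) ?_ ?_
      · have e1 : wd [(a, (1 : ℤ)), (j, (1 : ℤ))] = FreeGroup.of a * FreeGroup.of j := by
          simp [wd]
        rw [e1, map_mul, ha1, hg', h1, wd_cons, wd_append, wd_cons, wd_iv]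
        group
      · simp only [List.length_cons, List.length_append]
        omega
      · have hW1 : 0 < W.length := List.length_pos_iff.2 hWn
        have e1 : (iv W).length = W.length := by simp [iv]
        simp only [List.length_cons, List.length_append, List.length_nil, e1]
        omega
  obtain ⟨n, hn⟩ := key b hab.symm
  have hφ2 := hφ1.conj (FreeGroup.of a ^ n)⁻¹
  have ha2 : (MulAut.conj (FreeGroup.of a ^ n)⁻¹ * ψ) (FreeGroup.of a) = FreeGroup.of a := by
    rw [MulAut.mul_apply, MulAut.conj_apply, ha1]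
    group
  have hb2 : (MulAut.conj (FreeGroup.of a ^ n)⁻¹ * ψ) (FreeGroup.of b) = FreeGroup.of b := by
    rw [MulAut.mul_apply, MulAut.conj_apply, hn]
    group
  have key2 : ∀ j, j ≠ a → j ≠ b → ψ (FreeGroup.of j) =
      FreeGroup.of a ^ n * FreeGroup.of j * (FreeGroup.of a ^ n)⁻¹ := by
    intro j hja hjb
    obtain ⟨k, hk⟩ := key j hja
    by_cases hkn : k = n
    · rw [hk, hkn]
    exfalso
    refine conflict hφ2 (u := 1) (L := [(b, (1 : ℤ)), (a, k - n), (j, (1 : ℤ)), (a, -(k - n))])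
      (L' := [(b, (1 : ℤ)), (j, (1 : ℤ))]) ?_ ?_ (by simp) (by simp)
    · have e1 : wd [(b, (1 : ℤ)), (j, (1 : ℤ))] = FreeGroup.of b * FreeGroup.of j := by
        simp [wd]
      have e2 : wd [(b, (1 : ℤ)), (a, k - n), (j, (1 : ℤ)), (a, -(k - n))] =
          FreeGroup.of b * (FreeGroup.of a ^ (k - n) * (FreeGroup.of j *
            FreeGroup.of a ^ (-(k - n)))) := by
        simp [wd]
      rw [e1, map_mul, hb2, MulAut.mul_apply, MulAut.conj_apply, hk, e2]
      group
    · have hkn' : k - n ≠ 0 := sub_ne_zero.2 hkn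
      refine ⟨⟨?_, ?_⟩, ?_⟩
      · intro p hp
        simp only [List.mem_cons, List.not_mem_nil, or_false] at hp
        rcases hp with rfl | rfl | rfl | rfl
        · exact one_ne_zero
        · exact hkn'
        · exact one_ne_zero
        · exact neg_ne_zero.2 hkn'
      · simp [hab.symm, hja, hja.symm]
      · intro x hx y hy
        have hx' : x = (a, -(k - n)) := by simpa using hx.symm
        have hy' : y = (b, 1) := by simpa using hy.symm
        rw [hx', hy']
        exact hab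
  have hψ1 : ψ = MulAut.conj (FreeGroup.of a ^ n) := by
    have h1 : ψ.toMonoidHom = (MulAut.conj (FreeGroup.of a ^ n)).toMonoidHom := by
      apply FreeGroup.ext_hom
      intro j
      change ψ (FreeGroup.of j) = MulAut.conj (FreeGroup.of a ^ n) (FreeGroup.of j)
      rw [MulAut.conj_apply]
      by_cases hja : j = a
      · rw [hja, ha1]
        group
      · by_cases hjb : j = b
        · rw [hjb, hn]
        · exact key2 j hja hjb
    ext x
    exact DFunLike.congr_fun h1 x
  refine ⟨g * FreeGroup.of a ^ n, ?_⟩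
  rw [map_mul, ← hψ1, ← hψ, ← mul_assoc, ← map_mul, mul_inv_cancel, map_one, one_mul]

end Pool.Agent.U670.CV
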