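import Pool.Agent.U670.CV.Ab

/-!
# Virtually abelian subgroups and topologies
-/

set_option autoImplicit false

namespace Pool.Agent.U670.CV

/-- in a finitely generated abelian group generated by a subgroup `B` and `φ ∉ B` some subgroup of
finite index contains `B` and not `φ` -/
theorem sepab {E : Type} [CommGroup E] [Group.FG E] (B : Subgroup E) (φ : E) (h : φ ∉ B)
    (hgen : ∀ x : E, ∃ j : ℤ, ∃ b ∈ B, x = φ ^ j * b) :
    ∃ V : Subgroup E, V.FiniteIndex ∧ B ≤ V ∧ φ ∉ V := by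
  obtain ⟨k, hk, hroot⟩ := root_bound B
  have hn : 0 < 2 * k := by omega
  have hfin : Finite (E ⧸ (powMonoidHom (2 * k) : E →* E).range) := finite_quot hn
  have hfi : (powMonoidHom (2 * k) : E →* E).range.FiniteIndex :=
    Subgroup.finiteIndex_of_finite_quotient
  refine ⟨(powMonoidHom (2 * k) : E →* E).range ⊔ B,
    Subgroup.finiteIndex_of_le (H := (powMonoidHom (2 * k) : E →* E).range) le_sup_left,
    le_sup_right, ?_⟩
  intro hφ
  obtain ⟨_, ⟨y, rfl⟩, b, hb, hyb⟩ := Subgroup.mem_sup.1 hφ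
  obtain ⟨j, c, hc, rfl⟩ := hgen y
  rw [powMonoidHom_apply, mul_pow, mul_assoc] at hyb
  have h1 : c ^ (2 * k) * b ∈ B := B.mul_mem (B.pow_mem hc _) hb
  have h3 : (φ ^ j) ^ (2 * k) = φ ^ (j * (2 * k : ℕ)) := by
    rw [zpow_mul, zpow_natCast]
  rw [h3] at hyb
  have h2 : φ ^ (1 - j * (2 * k : ℕ)) ∈ B := by
    have h4 : φ ^ (1 - j * (2 * k : ℕ)) = c ^ (2 * k) * b := by
      rw [zpow_sub, zpow_one, mul_inv_eq_iff_eq_mul, mul_comm]
      exact hyb.symm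
    rw [h4]
    exact h1
  have h5 : φ ^ k ∈ B := by
    apply hroot
    have hne : 1 - j * (2 * k : ℕ) ≠ 0 := by
      intro h0
      have h6 : (1 : ℤ) = 2 * (j * k) := by push_cast at h0; linarith
      omega
    refine ⟨(1 - j * (2 * k : ℕ)).natAbs, Int.natAbs_pos.2 hne, ?_⟩
    rcases Int.natAbs_eq (1 - j * (2 * k : ℕ)) with h | h
    · rw [h, zpow_natCast] at h2
      exact h2
    · rw [h, zpow_neg, zpow_natCast] at h2
      exact inv_mem_iff.1 h2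
  apply h
  rw [← hyb]
  refine B.mul_mem ?_ h1
  have h7 : φ ^ (j * (2 * k : ℕ)) = (φ ^ k) ^ (2 * j) := by
    rw [← zpow_natCast φ k, ← zpow_mul]
    congr 1
    push_cast
    ring
  rw [h7]
  exact B.zpow_mem h5 _

variable {Γ : Type} [Group Γ]

/-- a directed family of normal subgroups with trivial intersection such that every subgroup of
finite index of a finitely generated abelian subgroup is open -/
structure Top (𝒞 : Set (Subgroup Γ)) : Prop where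
  ne : 𝒞.Nonempty
  dir : ∀ C ∈ 𝒞, ∀ C' ∈ 𝒞, ∃ C'' ∈ 𝒞, C'' ≤ C ⊓ C'
  nor : ∀ C ∈ 𝒞, C.Normal
  haus : ∀ z : Γ, (∀ C ∈ 𝒞, z ∈ C) → z = 1
  ab : ∀ B : Subgroup Γ, B.FG → (∀ x ∈ B, ∀ y ∈ B, x * y = y * x) → ∀ V : Subgroup B,
    V.FiniteIndex → ∃ C ∈ 𝒞, ∀ x : B, (x : Γ) ∈ C → x ∈ V

/-- finite intersections -/
theorem Top.fin {𝒞 : Set (Subgroup Γ)} (h : Top 𝒞) {J : Type} [Finite J] (f : J → Subgroup Γ)
    (hf : ∀ j, f j ∈ 𝒞) : ∃ C ∈ 𝒞, ∀ j, C ≤ f j := by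
  classical
  have : Fintype J := Fintype.ofFinite J
  have key : ∀ S : Finset J, ∃ C ∈ 𝒞, ∀ j ∈ S, C ≤ f j := by
    intro S
    induction S using Finset.induction_on with
    | empty =>
      obtain ⟨C, hC⟩ := h.ne
      exact ⟨C, hC, by simp⟩
    | insert j S _ ih =>
      obtain ⟨C, hC, h1⟩ := ih
      obtain ⟨C'', hC'', h2⟩ := h.dir C hC (f j) (hf j)
      refine ⟨C'', hC'', ?_⟩
      intro i hi
      rcases Finset.mem_insert.1 hi with rfl | hi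
      · exact h2.trans inf_le_right
      · exact (h2.trans inf_le_left).trans (h1 i hi)
  obtain ⟨C, hC, h1⟩ := key Finset.univ
  exact ⟨C, hC, fun j => h1 j (Finset.mem_univ j)⟩

/-- the subgroup generated by `B` and an element commuting with `B` -/
def adj (B : Subgroup Γ) (φ : Γ) (hc : ∀ w ∈ B, w * φ = φ * w) : Subgroup Γ where
  carrier := {x | ∃ j : ℤ, ∃ b ∈ B, x = φ ^ j * b}
  one_mem' := ⟨0, 1, B.one_mem, by simp⟩
  mul_mem' := by
    rintro _ _ ⟨j, b, hb, rfl⟩ ⟨k, c, hc', rfl⟩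
    refine ⟨j + k, b * c, B.mul_mem hb hc', ?_⟩
    have h1 : b * φ ^ k = φ ^ k * b := (Commute.zpow_right (hc b hb) k : Commute b (φ ^ k))
    calc φ ^ j * b * (φ ^ k * c) = φ ^ j * (b * φ ^ k) * c := by group
      _ = φ ^ (j + k) * (b * c) := by rw [h1]; group
  inv_mem' := by
    rintro _ ⟨j, b, hb, rfl⟩
    refine ⟨-j, b⁻¹, B.inv_mem hb, ?_⟩
    have h1 : b⁻¹ * φ ^ (-j) = φ ^ (-j) * b⁻¹ :=
      (Commute.zpow_right (hc b⁻¹ (B.inv_mem hb)) (-j) : Commute b⁻¹ (φ ^ (-j)))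
    rw [← h1, mul_inv_rev, zpow_neg]

theorem fg_inf_ab (B : Subgroup Γ) (hfg : B.FG) (hB : ∀ x ∈ B, ∀ y ∈ B, x * y = y * x)
    (V : Subgroup Γ) (hV : V ≤ B) : V.FG := by
  let inst : CommGroup B := { (inferInstance : Group B) with
    mul_comm := fun a b => Subtype.ext (hB a a.2 b b.2) }
  have h1 : Group.FG B := (Group.fg_iff_subgroup_fg B).2 hfg
  have h2 : Group.FG (V.subgroupOf B) := fg_sub _
  have h3 : (V.subgroupOf B).FG := (Group.fg_iff_subgroup_fg _).1 h2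
  obtain ⟨S, hS⟩ := h3
  classical
  refine ⟨S.image B.subtype, ?_⟩
  rw [Finset.coe_image, ← MonoidHom.map_closure, hS, Subgroup.subgroupOf_map_subtype,
    inf_eq_left.2 hV]

/-- finitely generated abelian subgroups are closed -/
theorem Top.closed {𝒞 : Set (Subgroup Γ)} (h : Top 𝒞) (B : Subgroup Γ) (hfg : B.FG)
    (hB : ∀ x ∈ B, ∀ y ∈ B, x * y = y * x) (φ : Γ) (hφ : φ ∉ B) :
    ∃ C ∈ 𝒞, ∀ b ∈ B, b * φ ∉ C := by
  by_contra hcon
  push Not at hcon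
  have hcomm : ∀ w ∈ B, w * φ = φ * w := by
    intro w hw
    have h1 : w * φ * w⁻¹ * φ⁻¹ = 1 := by
      apply h.haus
      intro C hC
      have hN := h.nor C hC
      obtain ⟨b, hb, hbC⟩ := hcon C hC
      have e1 : (QuotientGroup.mk (b * φ) : Γ ⧸ C) = 1 := (QuotientGroup.eq_one_iff _).2 hbC
      rw [QuotientGroup.mk_mul] at e1
      have e2 : (QuotientGroup.mk φ : Γ ⧸ C) = (QuotientGroup.mk b)⁻¹ :=
        eq_inv_of_mul_eq_one_right e1
      rw [← QuotientGroup.eq_one_iff, QuotientGroup.mk_mul, QuotientGroup.mk_mul,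
        QuotientGroup.mk_mul, QuotientGroup.mk_inv, QuotientGroup.mk_inv, e2,
        ← QuotientGroup.mk_inv, ← QuotientGroup.mk_inv, ← QuotientGroup.mk_inv,
        ← QuotientGroup.mk_mul, ← QuotientGroup.mk_mul, ← QuotientGroup.mk_mul]
      have e3 : w * b⁻¹ * w⁻¹ * b⁻¹⁻¹ = 1 := by
        rw [hB w hw b⁻¹ (B.inv_mem hb)]
        group
      rw [e3]
      rfl
    have h2 : w * φ * w⁻¹ = φ := mul_inv_eq_one.1 h1
    exact mul_inv_eq_iff_eq_mul.1 h2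
  let B2 := adj B φ hcomm
  have hBB2 : B ≤ B2 := fun b hb => ⟨0, b, hb, by simp⟩
  have hφB2 : φ ∈ B2 := ⟨1, 1, B.one_mem, by simp⟩
  have hB2 : ∀ x ∈ B2, ∀ y ∈ B2, x * y = y * x := by
    rintro _ ⟨j, b, hb, rfl⟩ _ ⟨k, c, hc, rfl⟩
    have h1 : Commute b c := hB b hb c hc
    have h2 : Commute b φ := hcomm b hb
    have h3 : Commute c φ := hcomm c hc
    have h4 : Commute φ φ := Commute.refl φ
    have h5 : Commute (φ ^ j * b) (φ ^ k * c) :=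
      Commute.mul_left (Commute.mul_right ((h4.zpow_left j).zpow_right k) (h3.symm.zpow_left j))
        (Commute.mul_right (h2.zpow_right k) h1)
    exact h5
  have hB2fg : B2.FG := by
    have e : B2 = B ⊔ Subgroup.zpowers φ := by
      apply le_antisymm
      · rintro _ ⟨j, b, hb, rfl⟩
        exact (B ⊔ Subgroup.zpowers φ).mul_mem
          (Subgroup.mem_sup_right (Subgroup.zpow_mem _ (Subgroup.mem_zpowers φ) j))
          (Subgroup.mem_sup_left hb)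
      · rw [sup_le_iff]
        refine ⟨hBB2, ?_⟩
        rw [Subgroup.zpowers_le]
        exact hφB2
    rw [e]
    exact hfg.sup ⟨{φ}, by rw [Finset.coe_singleton, Subgroup.zpowers_eq_closure]⟩
  let inst : CommGroup B2 := { (inferInstance : Group B2) with
    mul_comm := fun a b => Subtype.ext (hB2 a a.2 b b.2) }
  have hfgB2 : Group.FG B2 := (Group.fg_iff_subgroup_fg B2).2 hB2fg
  obtain ⟨V, hV, hBV, hφV⟩ := sepab (E := B2) (B.subgroupOf B2) ⟨φ, hφB2⟩ hφ (by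
    rintro ⟨_, j, b, hb, rfl⟩
    refine ⟨j, ⟨b, hBB2 hb⟩, hb, ?_⟩
    apply Subtype.ext
    rfl)
  obtain ⟨C, hC, h1⟩ := h.ab B2 hB2fg hB2 V hV
  obtain ⟨b, hb, hbC⟩ := hcon C hC
  have h2 := h1 ⟨b * φ, B2.mul_mem (hBB2 hb) hφB2⟩ hbC
  have h3 : (⟨b, hBB2 hb⟩ : B2) ∈ V := hBV hb
  apply hφV
  have h4 := V.mul_mem (V.inv_mem h3) h2
  have h5 : (⟨b, hBB2 hb⟩ : B2)⁻¹ * ⟨b * φ, B2.mul_mem (hBB2 hb) hφB2⟩ = ⟨φ, hφB2⟩ := by
    apply Subtype.ext
    exact inv_mul_cancel_left b φ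
  rwa [h5] at h4

/-- virtually abelian finitely generated subgroups: every subgroup of finite index is open -/
theorem Top.vopen {𝒞 : Set (Subgroup Γ)} (h : Top 𝒞) (A B : Subgroup Γ) (hBA : B ≤ A)
    (hfg : B.FG) (hB : ∀ x ∈ B, ∀ y ∈ B, x * y = y * x) (hfi : B.relIndex A ≠ 0) (V : Subgroup Γ)
    (hVA : V ≤ A) (hVfi : V.relIndex A ≠ 0) : ∃ C ∈ 𝒞, C ⊓ A ≤ V := by
  classical
  let V1 := V ⊓ B
  have hV1 : V1.FG := fg_inf_ab B hfg hB V1 inf_le_right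
  have hV1c : ∀ x ∈ V1, ∀ y ∈ V1, x * y = y * x := fun x hx y hy => hB x hx.2 y hy.2
  have hV1fi : V1.relIndex A ≠ 0 := Subgroup.relIndex_inf_ne_zero hVfi hfi
  have hq : Finite (A ⧸ V1.subgroupOf A) := Nat.finite_of_card_ne_zero hV1fi
  obtain ⟨C0, hC0⟩ := h.ne
  have hex : ∀ q : A ⧸ V1.subgroupOf A, ∃ C ∈ 𝒞, ((Quotient.out q : A) : Γ) ∉ V →
      ∀ v ∈ V1, v * ((Quotient.out q : A) : Γ)⁻¹ ∉ C := by
    intro q
    by_cases hq : ((Quotient.out q : A) : Γ) ∈ V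
    · exact ⟨C0, hC0, fun h => absurd hq h⟩
    · have h1 : ((Quotient.out q : A) : Γ)⁻¹ ∉ V1 := fun h2 => hq (inv_mem_iff.1 h2.1)
      obtain ⟨C, hC, h2⟩ := h.closed V1 hV1 hV1c _ h1
      exact ⟨C, hC, fun _ => h2⟩
  choose f hf hf2 using hex
  obtain ⟨C, hC, hle⟩ := h.fin f hf
  refine ⟨C, hC, ?_⟩
  rintro x ⟨hxC, hxA⟩
  by_contra hxV
  let q : A ⧸ V1.subgroupOf A := QuotientGroup.mk ⟨x, hxA⟩
  have h3 : QuotientGroup.mk (Quotient.out q) = (QuotientGroup.mk ⟨x, hxA⟩ : A ⧸ V1.subgroupOf A) :=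
    QuotientGroup.out_eq' q
  have h4' : (Quotient.out q)⁻¹ * ⟨x, hxA⟩ ∈ V1.subgroupOf A := QuotientGroup.eq.1 h3
  have h4 : ((Quotient.out q : A) : Γ)⁻¹ * x ∈ V1 := h4'
  have h5 : ((Quotient.out q : A) : Γ) ∉ V := by
    intro h6
    apply hxV
    have h7 := V.mul_mem h6 h4.1
    rwa [mul_inv_cancel_left] at h7
  refine hf2 q h5 _ (V1.inv_mem h4) (hle q ?_)
  have h6 : (((Quotient.out q : A) : Γ)⁻¹ * x)⁻¹ * ((Quotient.out q : A) : Γ)⁻¹ = x⁻¹ := by group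
  rw [h6]
  exact C.inv_mem hxC

/-- virtually abelian finitely generated subgroups are closed -/
theorem Top.vclosed {𝒞 : Set (Subgroup Γ)} (h : Top 𝒞) (A B : Subgroup Γ) (hBA : B ≤ A)
    (hfg : B.FG) (hB : ∀ x ∈ B, ∀ y ∈ B, x * y = y * x) (hfi : B.relIndex A ≠ 0) (φ : Γ)
    (hφ : φ ∉ A) : ∃ C ∈ 𝒞, ∀ a ∈ A, a * φ ∉ C := by
  classical
  have hq : Finite (A ⧸ B.subgroupOf A) := Nat.finite_of_card_ne_zero hfi
  have hex : ∀ q : A ⧸ B.subgroupOf A, ∃ C ∈ 𝒞,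
      ∀ b ∈ B, b * (((Quotient.out q : A) : Γ)⁻¹ * φ) ∉ C := by
    intro q
    apply h.closed B hfg hB
    intro h1
    apply hφ
    have h2 := A.mul_mem (Quotient.out q : A).2 (hBA h1)
    rwa [mul_inv_cancel_left] at h2
  choose f hf hf2 using hex
  obtain ⟨C, hC, hle⟩ := h.fin f hf
  refine ⟨C, hC, ?_⟩
  intro a ha hx
  let q : A ⧸ B.subgroupOf A := QuotientGroup.mk ⟨a⁻¹, A.inv_mem ha⟩
  have h3 : QuotientGroup.mk (Quotient.out q) =
      (QuotientGroup.mk ⟨a⁻¹, A.inv_mem ha⟩ : A ⧸ B.subgroupOf A) := QuotientGroup.out_eq' q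
  have h4' : (Quotient.out q)⁻¹ * ⟨a⁻¹, A.inv_mem ha⟩ ∈ B.subgroupOf A := QuotientGroup.eq.1 h3
  have h4 : ((Quotient.out q : A) : Γ)⁻¹ * a⁻¹ ∈ B := h4'
  refine hf2 q _ (B.inv_mem h4) (hle q ?_)
  have h6 : (((Quotient.out q : A) : Γ)⁻¹ * a⁻¹)⁻¹ * (((Quotient.out q : A) : Γ)⁻¹ * φ) =
      a * φ := by group
  rw [h6]
  exact hx

end Pool.Agent.U670.CV
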