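import Pool.Agent.U670.CV.Act
import Pool.Agent.U670.CV.Virt
import Pool.Agent.U670.CV.Gr
import Pool.Agent.W401.Cheb.Main
import Pool.Agent.R569.CS.Core

/-!
# The congruence topologies of `Aut F` and `Out F`
-/

set_option autoImplicit false

namespace Pool.Agent.U670.CV

open Pool.Agent.R569.CS (act mem_act act_mono act_normal)

theorem frob : Frob := by
  intro L _ _ _ g D
  obtain ⟨p, ⟨hp, hx⟩, hD⟩ := (Pool.Agent.W401.Cheb.infinite_frob L g).exists_gt D
  unfold Pool.Agent.W401.Cheb.xp at hx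
  rw [dif_pos hp] at hx
  have : Fact p.Prime := ⟨hp⟩
  obtain ⟨⟨φ, hφ⟩⟩ := (Nat.card_ne_zero.1 hx).1
  exact ⟨p, hp, hD, AlgebraicClosure (ZMod p), inferInstance, inferInstance, φ, hφ⟩

section

variable {G : Type} [Group G]

/-- the elements of `Aut G` acting trivially modulo `K` -/
abbrev actK (K : Subgroup G) : Subgroup (MulAut G) := act (MonoidHom.id (MulAut G)) K

/-- the images of the congruence subgroups in a quotient of `Aut G` -/
def CC (N : Subgroup (MulAut G)) [N.Normal] : Set (Subgroup (MulAut G ⧸ N)) :=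
  {C | ∃ K : Subgroup G, K.Characteristic ∧ K.FiniteIndex ∧
    C = (actK K).map (QuotientGroup.mk' N)}

theorem dvd_of_act {c m : ℕ} {φ : MulAut G} (hφ : φ ∈ actK (Kf G c m)) {h : G → ℤ}
    (hh : h ∈ Pol G ℤ c) (x : G) : (m : ℤ) ∣ h (φ x) - h x := by
  have hchar : (Kf G c m).Characteristic := Kf_char c m
  have hn : (Kf G c m).Normal := inferInstance
  have h1 : φ x * x⁻¹ ∈ Kf G c m := hφ x
  have h2 : x⁻¹ * (φ x * x⁻¹) * x⁻¹⁻¹ ∈ Kf G c m := hn.conj_mem _ h1 _
  have h3 := h2 _ (cast_mem m hh) x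
  have h4 : x * (x⁻¹ * (φ x * x⁻¹) * x⁻¹⁻¹) = φ x := by group
  rw [h4] at h3
  have h5 : ((h (φ x) : ℤ) : ZMod m) = ((h x : ℤ) : ZMod m) := h3
  rw [eq_comm, ZMod.intCast_eq_intCast_iff_dvd_sub] at h5
  exact h5

variable {N : Subgroup (MulAut G)} {W : AddSubgroup (G → ℤ)}

theorem same_of_mk [N.Normal] (hA : Adm N W) {φ ψ : MulAut G}
    (h : (QuotientGroup.mk φ : MulAut G ⧸ N) = QuotientGroup.mk ψ) {k : G → ℤ} (hk : k ∈ W)
    (x : G) : k (φ x) = k (ψ x) := by
  have h1 : ψ * φ⁻¹ ∈ N := by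
    have h2 : φ⁻¹ * ψ ∈ N := QuotientGroup.eq.1 h
    have hn : N.Normal := inferInstance
    have h3 := hn.conj_mem _ h2 φ
    have h4 : φ * (φ⁻¹ * ψ) * φ⁻¹ = ψ * φ⁻¹ := by group
    rwa [h4] at h3
  have h5 := congrFun (hA.triv _ h1 k hk) (φ x)
  simp only [MulAut.mul_apply] at h5
  have h6 : (φ⁻¹ : MulAut G) (φ x) = x := by
    rw [← MulAut.mul_apply, inv_mul_cancel, MulAut.one_apply]
  rw [h6] at h5
  exact h5.symm

theorem top_CC [Group.FG G] [N.Normal] (hA : Adm N W)
    (hab : ∀ g : G, (∀ f : G →* Multiplicative ℤ, f g = 1) → g ∈ commutator G) :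
    Top (CC N) where
  ne := ⟨_, ⊤, inferInstance, inferInstance, rfl⟩
  dir := by
    rintro _ ⟨K, hK1, hK2, rfl⟩ _ ⟨K', hK1', hK2', rfl⟩
    refine ⟨_, ⟨K ⊓ K', ?_, inferInstance, rfl⟩, le_inf ?_ ?_⟩
    · rw [Subgroup.characteristic_iff_map_eq]
      intro φ
      rw [Subgroup.map_inf_eq _ _ _ φ.injective, Subgroup.characteristic_iff_map_eq.1 hK1,
        Subgroup.characteristic_iff_map_eq.1 hK1']
    · exact Subgroup.map_mono (act_mono inf_le_left)
    · exact Subgroup.map_mono (act_mono inf_le_right)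
  nor := by
    rintro _ ⟨K, hK1, hK2, rfl⟩
    exact Subgroup.Normal.map (act_normal _ K) _ (QuotientGroup.mk'_surjective N)
  haus := by
    intro z hz
    obtain ⟨φ, rfl⟩ := QuotientGroup.mk_surjective z
    rw [QuotientGroup.eq_one_iff]
    apply hA.faith
    intro c h hh hW
    funext x
    by_contra hne
    have h0 : h (φ x) - h x ≠ 0 := sub_ne_zero.2 hne
    let m : ℕ := (h (φ x) - h x).natAbs + 1
    obtain ⟨ψ, hψ, hψφ⟩ := hz _ ⟨Kf G c m, Kf_char c m, Kf_fin c m (Nat.succ_pos _), rfl⟩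
    have h1 := dvd_of_act hψ hh x
    rw [same_of_mk hA hψφ hW] at h1
    have h2 := Int.natAbs_dvd_natAbs.2 h1
    have h3 := Nat.le_of_dvd (Int.natAbs_pos.2 h0) h2
    simp only [Int.natAbs_natCast] at h3
    omega
  ab := by
    intro B hfg hB V hV
    let inst : CommGroup B := { (inferInstance : Group B) with
      mul_comm := fun a b => Subtype.ext (hB a a.2 b b.2) }
    have hfgB : Group.FG B := (Group.fg_iff_subgroup_fg B).2 hfg
    obtain ⟨c, m, hm, h1⟩ := ab_core frob hA hab (A := B) B.subtype B.subtype_injective V hV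
    refine ⟨_, ⟨Kf G c m, Kf_char c m, Kf_fin c m hm, rfl⟩, ?_⟩
    rintro x ⟨φ, hφ, hφx⟩
    exact h1 x φ hφx fun h hh y => dvd_of_act hφ hh.1 y

end

/-! ### Free groups -/

/-- the inner automorphisms -/
def Inn (G : Type) [Group G] : Subgroup (MulAut G) := (MulAut.conj : G →* MulAut G).range

instance innNormal (G : Type) [Group G] : (Inn G).Normal := by
  constructor
  rintro _ ⟨g, rfl⟩ φ
  refine ⟨φ g, ?_⟩
  ext x
  simp [MulAut.conj_apply]

/-- the class functions -/
def ClassFn (G : Type) [Group G] : AddSubgroup (G → ℤ) where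
  carrier := {h | ∀ x y, h (x * y) = h (y * x)}
  zero_mem' := fun _ _ => rfl
  add_mem' := fun ha hb x y => by rw [Pi.add_apply, Pi.add_apply, ha x y, hb x y]
  neg_mem' := fun ha x y => by rw [Pi.neg_apply, Pi.neg_apply, ha x y]

variable {I : Type}

theorem free_ab (g : FreeGroup I) (hg : ∀ f : FreeGroup I →* Multiplicative ℤ, f g = 1) :
    g ∈ commutator (FreeGroup I) := by
  let e := FreeAbelianGroup.equivFinsupp I
  have h1 : e (Additive.ofMul (Abelianization.of g)) = 0 := by
    ext i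
    let e' : FreeAbelianGroup I →+ ℤ := (Finsupp.applyAddHom i).comp e.toAddMonoidHom
    let f : FreeGroup I →* Multiplicative ℤ :=
      { toFun := fun x => Multiplicative.ofAdd (e' (Additive.ofMul (Abelianization.of x)))
        map_one' := congrArg Multiplicative.ofAdd (map_zero e')
        map_mul' := fun x y => by
          have h := map_add e' (Additive.ofMul (Abelianization.of x) : FreeAbelianGroup I)
            (Additive.ofMul (Abelianization.of y) : FreeAbelianGroup I)
          exact congrArg Multiplicative.ofAdd h }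
    have h2 := hg f
    exact h2
  have h2 : Additive.ofMul (Abelianization.of g) = 0 := by
    have := e.injective (h1.trans (map_zero e).symm)
    exact this
  have h3 : Abelianization.of g = 1 := h2
  exact (QuotientGroup.eq_one_iff g).1 h3

theorem adm_inn [DecidableEq I] {a b : I} (hab : a ≠ b) :
    Adm (Inn (FreeGroup I)) (ClassFn (FreeGroup I)) where
  comp := by
    intro φ h hh x y
    change h (φ (x * y)) = h (φ (y * x))
    rw [map_mul, map_mul]
    exact hh _ _
  triv := by
    rintro _ ⟨g, rfl⟩ h hh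
    funext x
    have h1 := hh (g * x) g⁻¹
    rw [inv_mul_cancel_left] at h1
    exact h1
  pure := by
    intro m hm h hh x y
    have h1 : (m : ℤ) * h (x * y) = m * h (y * x) := hh x y
    exact mul_left_cancel₀ (by exact_mod_cast hm.ne') h1
  homs := by
    intro f x y
    simp [add_comm]
  faith := by
    intro φ h
    have hT : Tv φ := fun c k hk x => congrFun (h c k hk.1 hk.2) x
    obtain ⟨g, rfl⟩ := tv_inner hab hT
    exact ⟨g, rfl⟩

theorem sep_one [DecidableEq I] (y : FreeGroup I) (hy : y ≠ 1) :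
    ∃ (c : ℕ) (h : FreeGroup I → ℤ), h ∈ CF (FreeGroup I) c ∧ h y ≠ h 1 := by
  obtain ⟨g, L, h1, h2⟩ := exists_CR y
  rcases h2 with h2 | ⟨h2, h3⟩
  · cases L with
    | nil =>
      exfalso
      apply hy
      rw [h1, wd_nil]
      group
    | cons p T =>
      have hT : T = [] := by
        cases T with
        | nil => rfl
        | cons q T => simp at h2
      subst hT
      have hp : p.2 ≠ 0 := by
        intro h0
        apply hy
        rw [h1, wd_cons, wd_nil, h0]
        group
      refine ⟨2, _, hom_mem (ex p.1), ?_⟩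
      rw [h1, wd_cons, wd_nil, mul_one]
      simp only [map_mul, map_inv, map_zpow, toAdd_mul, toAdd_inv, toAdd_zpow, smul_eq_mul,
        map_one, toAdd_one]
      have h8 : Multiplicative.toAdd (ex p.1 (FreeGroup.of p.1)) = 1 := by simp [ex]
      rw [h8, mul_one]
      intro h9
      apply hp
      linarith
  · obtain ⟨c, h, hh, h5, h6⟩ := sep L h2 h3.1.1 h3.1.2 h3.2
    refine ⟨c, h, hh, ?_⟩
    rw [h1, class_conj hh]
    have h7 := h6 [] (by rw [List.length_nil]; omega)
    rw [wd_nil] at h7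
    rw [h7]
    exact h5

theorem adm_bot [DecidableEq I] {a b : I} (hab : a ≠ b) :
    Adm (⊥ : Subgroup (MulAut (FreeGroup I))) (⊤ : AddSubgroup (FreeGroup I → ℤ)) where
  comp := fun _ _ _ => trivial
  triv := by
    intro φ hφ h _
    rw [Subgroup.mem_bot] at hφ
    subst hφ
    rfl
  pure := fun _ _ _ _ => trivial
  homs := fun _ => trivial
  faith := by
    intro φ h
    have hT : Tv φ := fun c k hk x => congrFun (h c k hk.1 trivial) x
    obtain ⟨g, rfl⟩ := tv_inner hab hT
    rw [Subgroup.mem_bot]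
    ext x
    rw [MulAut.conj_apply, MulAut.one_apply]
    by_contra hne
    have hy : g * x * g⁻¹ * x⁻¹ ≠ 1 := fun h0 => hne (mul_inv_eq_one.1 h0)
    obtain ⟨c, k, hk, hk1⟩ := sep_one _ hy
    apply hk1
    have h1 := congrFun (h c _ (trans_mem hk.1 x⁻¹) trivial) x
    simp only [MulAut.conj_apply, mul_inv_cancel] at h1
    exact h1

end Pool.Agent.U670.CV
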