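import Mathlib

/-!
# Powers at a Frobenius element
-/

set_option autoImplicit false

namespace Pool.Agent.U670.CV

open NumberField

variable {L : Type} [Field L] [NumberField L]

/-- the key step of Kummer theory at a prime with a given Frobenius element -/
theorem frob_key {k : Type} [Field k] {p : ℕ} (φ : 𝓞 L →+* k) (σ : Gal(L/ℚ))
    (hφ : ∀ x : 𝓞 L, φ (σ • x) = φ x ^ p) {N : ℕ} (hN : 0 < N) (hpN : (N : k) ≠ 0) {ζ : 𝓞 L}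
    (hζ : IsPrimitiveRoot ζ N) (hσζ : σ • ζ = ζ) (t : (𝓞 L)ˣ) (ht : σ • (t : 𝓞 L) ≠ t)
    (htN : σ • ((t : 𝓞 L) ^ N) = (t : 𝓞 L) ^ N) (z : 𝓞 L) (hz : σ • z = z) :
    φ ((t : 𝓞 L) ^ N) ≠ φ z ^ N := by
  intro h
  have h1 := hζ.pow_sub_pow_eq_prod_sub_mul (t : 𝓞 L) z hN
  have h2 : φ ((t : 𝓞 L) ^ N - z ^ N) = 0 := by
    rw [map_sub, map_pow φ z, h, sub_self]
  rw [h1, map_prod, Finset.prod_eq_zero_iff] at h2
  obtain ⟨ζ', hζ', h3⟩ := h2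
  have h4 : ζ' ^ N = 1 := by
    have := (Polynomial.mem_nthRootsFinset hN 1).1 hζ'
    exact this
  have : NeZero N := ⟨hN.ne'⟩
  obtain ⟨i, -, hi⟩ := hζ.eq_pow_of_pow_eq_one h4
  have h5 : σ • ζ' = ζ' := by
    rw [← hi, smul_pow', hσζ]
  rw [map_sub, sub_eq_zero] at h3
  have h6 : φ (σ • (t : 𝓞 L)) = φ (t : 𝓞 L) := by
    rw [hφ, h3, ← hφ, smul_mul', h5, hz]
  let η : 𝓞 L := σ • (t : 𝓞 L) * ((t⁻¹ : (𝓞 L)ˣ) : 𝓞 L)
  have h7 : η ^ N = 1 := by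
    rw [mul_pow, ← smul_pow', htN, ← mul_pow, Units.mul_inv, one_pow]
  have h8 : η ≠ 1 := by
    intro h8
    apply ht
    have h9 : η * (t : 𝓞 L) = t := by rw [h8, one_mul]
    rwa [mul_assoc, Units.inv_mul, mul_one] at h9
  have h9 : φ η = 1 := by
    rw [map_mul, h6, ← map_mul, Units.mul_inv, map_one]
  have h10 : (∑ i ∈ Finset.range N, η ^ i) * (η - 1) = 0 := by
    rw [geom_sum_mul, h7, sub_self]
  have h11 : (∑ i ∈ Finset.range N, η ^ i) = 0 := by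
    rcases mul_eq_zero.1 h10 with h | h
    · exact h
    · exact absurd (sub_eq_zero.1 h) h8
  apply hpN
  have h12 := congrArg φ h11
  rw [map_sum, map_zero] at h12
  simpa [h9] using h12

/-- an automorphism which fixes the roots of unity and moves a real root -/
theorem exists_sigma (ι : L →+* ℂ) (H : Subgroup Gal(L/ℚ)) (c : Gal(L/ℚ)) (hc : c ∈ H)
    (hι : ∀ x, ι (c x) = (starRingEnd ℂ) (ι x)) {n : ℕ} (hn : 0 < n) {ζ : L}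
    (hζ : IsPrimitiveRoot ζ n) (t : L) (hct : c t = t) (htn : ∀ σ ∈ H, σ (t ^ n) = t ^ n)
    (σ₀ : Gal(L/ℚ)) (hσ₀ : σ₀ ∈ H) (h0 : σ₀ (t ^ 2) ≠ t ^ 2) :
    ∃ σ ∈ H, σ ζ = ζ ∧ σ t ≠ t := by
  by_contra hcon
  push Not at hcon
  have : NeZero n := ⟨hn.ne'⟩
  have hpow : ∀ σ : Gal(L/ℚ), ∃ i : ℕ, σ ζ = ζ ^ i := by
    intro σ
    have h1 : (σ ζ) ^ n = 1 := by rw [← map_pow, hζ.pow_eq_one, map_one]
    obtain ⟨i, -, hi⟩ := hζ.eq_pow_of_pow_eq_one h1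
    exact ⟨i, hi.symm⟩
  obtain ⟨a, ha⟩ := hpow σ₀
  obtain ⟨b, hb⟩ := hpow c
  have h1 : σ₀ (c ζ) = c (σ₀ ζ) := by
    rw [hb, ha, map_pow, map_pow, ha, hb, ← pow_mul, ← pow_mul, mul_comm]
  let τ : Gal(L/ℚ) := σ₀⁻¹ * c⁻¹ * σ₀ * c
  have hτ : τ ∈ H := H.mul_mem (H.mul_mem (H.mul_mem (H.inv_mem hσ₀) (H.inv_mem hc)) hσ₀) hc
  have h2 : τ ζ = ζ := by
    change σ₀⁻¹ (c⁻¹ (σ₀ (c ζ))) = ζ
    rw [h1]
    have e1 : c⁻¹ (c (σ₀ ζ)) = σ₀ ζ := by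
      rw [← AlgEquiv.mul_apply, inv_mul_cancel, AlgEquiv.one_apply]
    rw [e1, ← AlgEquiv.mul_apply, inv_mul_cancel, AlgEquiv.one_apply]
  have h3 := hcon τ hτ h2
  have h4 : σ₀ t = c (σ₀ t) := by
    have h5 : σ₀⁻¹ (c⁻¹ (σ₀ (c t))) = t := h3
    have h6 : c⁻¹ (σ₀ (c t)) = σ₀ t := by
      have := congrArg σ₀ h5
      rwa [← AlgEquiv.mul_apply, mul_inv_cancel, AlgEquiv.one_apply] at this
    have h7 : σ₀ (c t) = c (σ₀ t) := by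
      have := congrArg c h6
      rwa [← AlgEquiv.mul_apply, mul_inv_cancel, AlgEquiv.one_apply] at this
    rwa [hct] at h7
  have h5 : (starRingEnd ℂ) (ι (σ₀ t)) = ι (σ₀ t) := by rw [← hι, ← h4]
  have h6 : (starRingEnd ℂ) (ι t) = ι t := by rw [← hι, hct]
  obtain ⟨r, hr⟩ := Complex.conj_eq_iff_real.1 h5
  obtain ⟨s, hs⟩ := Complex.conj_eq_iff_real.1 h6
  have h7 : (r : ℂ) ^ n = (s : ℂ) ^ n := by
    rw [← hr, ← hs, ← map_pow, ← map_pow, ← map_pow, htn _ hσ₀]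
  have h8 : r ^ n = s ^ n := by exact_mod_cast h7
  have h9 : |r| = |s| := by
    have := congrArg abs h8
    rw [abs_pow, abs_pow] at this
    exact (pow_left_inj₀ (abs_nonneg r) (abs_nonneg s) hn.ne').1 this
  have h10 : r ^ 2 = s ^ 2 := by rw [← sq_abs r, ← sq_abs s, h9]
  apply h0
  apply ι.injective
  rw [map_pow, map_pow ι t, map_pow, hr, hs]
  exact_mod_cast h10

end Pool.Agent.U670.CV
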