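import Pool.Agent.U670.CV.Chars
import Pool.Agent.U670.CV.Chev2

/-!
# The congruence topology on an abelian group acting on a commutative ring finite over `ℤ`
-/

set_option autoImplicit false

namespace Pool.Agent.U670.CV

variable {A : Type} [CommGroup A] {R : Type} [CommRing R]

/-- the elements acting as `1` modulo `m` -/
def C (ρ : A →* R) (m : ℕ) : Subgroup A where
  carrier := {a | ∃ r : R, ρ a = 1 + m * r}
  one_mem' := ⟨0, by simp⟩
  mul_mem' := by
    rintro a b ⟨r, hr⟩ ⟨s, hs⟩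
    exact ⟨r + s + m * r * s, by rw [map_mul, hr, hs]; ring⟩
  inv_mem' := by
    rintro a ⟨r, hr⟩
    refine ⟨-(r * ρ a⁻¹), ?_⟩
    have h : ρ a * ρ a⁻¹ = 1 := by rw [← map_mul, mul_inv_cancel, map_one]
    rw [hr] at h
    linear_combination h

theorem mem_C {ρ : A →* R} {m : ℕ} {a : A} : a ∈ C ρ m ↔ ∃ r : R, ρ a = 1 + m * r := Iff.rfl

theorem C_le {ρ : A →* R} {m n : ℕ} (h : m ∣ n) : C ρ n ≤ C ρ m := by
  rintro a ⟨r, hr⟩
  obtain ⟨d, rfl⟩ := h
  exact ⟨d * r, by rw [hr]; push_cast; ring⟩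

theorem C_finiteIndex [Module.Finite ℤ R] (ρ : A →* R) {m : ℕ} (hm : 0 < m) :
    (C ρ m).FiniteIndex := by
  have hfin : Finite (R ⧸ Ideal.span {(m : R)}) := by
    have h1 : Module.Finite ℤ (R ⧸ Ideal.span {(m : R)}) := inferInstance
    have h2 : AddGroup.FG (R ⧸ Ideal.span {(m : R)}) := Module.Finite.iff_addGroup_fg.1 h1
    have h3 : Group.FG (Multiplicative (R ⧸ Ideal.span {(m : R)})) := inferInstance
    have h4 : Finite (Multiplicative (R ⧸ Ideal.span {(m : R)})) := by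
      apply CommGroup.finite_of_fg_isMulTorsion
      intro g
      refine isOfFinOrder_iff_pow_eq_one.2 ⟨m, hm, ?_⟩
      change m • (Multiplicative.toAdd g) = (0 : R ⧸ Ideal.span {(m : R)})
      rw [nsmul_eq_mul]
      have h5 : ((m : ℕ) : R ⧸ Ideal.span {(m : R)}) = 0 := by
        rw [← map_natCast (Ideal.Quotient.mk (Ideal.span {(m : R)}))]
        exact Ideal.Quotient.eq_zero_iff_mem.2 (Ideal.mem_span_singleton_self _)
      rw [h5, zero_mul]
    exact h4
  have hq : Finite (A ⧸ C ρ m) := by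
    let f : A ⧸ C ρ m → R ⧸ Ideal.span {(m : R)} := Quotient.lift (s := QuotientGroup.leftRel _)
      (fun a => Ideal.Quotient.mk _ (ρ a)) (by
        intro a b hab
        obtain ⟨r, hr⟩ := QuotientGroup.leftRel_apply.1 hab
        rw [Ideal.Quotient.eq, Ideal.mem_span_singleton]
        have h1 : ρ b = ρ a * ρ (a⁻¹ * b) := by rw [← map_mul, mul_inv_cancel_left]
        exact ⟨-(ρ a * r), by rw [h1, hr]; ring⟩)
    refine Finite.of_injective f ?_
    intro x y
    induction x using QuotientGroup.induction_on with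
    | H a =>
      induction y using QuotientGroup.induction_on with
      | H b =>
        intro h
        rw [QuotientGroup.eq]
        have h1 : (Ideal.Quotient.mk (Ideal.span {(m : R)})) (ρ b) = Ideal.Quotient.mk _ (ρ a) :=
          h.symm
        rw [Ideal.Quotient.eq, Ideal.mem_span_singleton] at h1
        obtain ⟨r, hr⟩ := h1
        refine ⟨ρ a⁻¹ * r, ?_⟩
        have h2 : ρ a⁻¹ * ρ a = 1 := by rw [← map_mul, inv_mul_cancel, map_one]
        rw [map_mul]
        linear_combination ρ a⁻¹ * hr + h2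
  exact Subgroup.finiteIndex_of_finite_quotient

/-- all subgroups of finite index which contain `B'` contain the intersection of `B` with a
congruence subgroup -/
def Good (ρ : A →* R) (B B' : Subgroup A) : Prop :=
  ∀ V : Subgroup A, V.FiniteIndex → B' ≤ V → ∃ m : ℕ, 0 < m ∧ C ρ m ⊓ B ≤ V

theorem Good.trans [Module.Finite ℤ R] {ρ : A →* R} {B B' B'' : Subgroup A} (h1 : Good ρ B B')
    (h2 : Good ρ B' B'') : Good ρ B B'' := by
  intro V hV hle
  obtain ⟨m1, hm1, h3⟩ := h2 V hV hle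
  have hC := C_finiteIndex ρ hm1
  have hfi : ((V ⊓ C ρ m1) ⊔ B').FiniteIndex :=
    Subgroup.finiteIndex_of_le (H := V ⊓ C ρ m1) le_sup_left
  obtain ⟨m2, hm2, h4⟩ := h1 _ hfi le_sup_right
  refine ⟨m1 * m2, Nat.mul_pos hm1 hm2, ?_⟩
  rintro x ⟨hx1, hx2⟩
  have hx3 := h4 ⟨C_le (Dvd.intro_left m1 rfl) hx1, hx2⟩
  obtain ⟨v, hv, b, hb, rfl⟩ := Subgroup.mem_sup.1 hx3
  have hb1 : b ∈ C ρ m1 := by
    have h5 := (C ρ m1).mul_mem ((C ρ m1).inv_mem hv.2) (C_le (Dvd.intro m2 rfl) hx1)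
    rwa [inv_mul_cancel_left] at h5
  exact V.mul_mem hv.1 (h3 ⟨hb1, hb⟩)

theorem good_step (ρ : A →* R) {B B' : Subgroup A} {E : Type} [CommGroup E] [Group.FG E]
    (D : B →* E) (hD : ∀ b : B, D b = 1 → (b : A) ∈ B')
    (h : ∀ N : ℕ, 0 < N → ∃ m : ℕ, 0 < m ∧ ∀ b : B, (b : A) ∈ C ρ m → ∃ e : E, e ^ N = D b) :
    Good ρ B B' := by
  intro V hV hle
  obtain ⟨k, hk, hroot⟩ := root_bound D.range
  let d := V.index.factorial
  have hd : ∀ a : A, a ^ d ∈ V := fun a =>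
    Subgroup.pow_mem_of_index_ne_zero_of_dvd hV.index_ne_zero a
      (fun m h1 h2 => Nat.dvd_factorial h1 h2)
  have hdpos : 0 < d := Nat.factorial_pos _
  obtain ⟨m, hm, h1⟩ := h (k * d) (Nat.mul_pos hk hdpos)
  refine ⟨m, hm, ?_⟩
  rintro b ⟨hb1, hb⟩
  obtain ⟨e, he⟩ := h1 ⟨b, hb⟩ hb1
  obtain ⟨w, hw⟩ := hroot e ⟨k * d, Nat.mul_pos hk hdpos, ⟨⟨b, hb⟩, he.symm⟩⟩
  have h3 : D (w ^ d) = D ⟨b, hb⟩ := by rw [map_pow, hw, ← pow_mul, he]
  have h4 : D ((w ^ d)⁻¹ * ⟨b, hb⟩) = 1 := by rw [map_mul, map_inv, h3, inv_mul_cancel]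
  have h5 := hle (hD _ h4)
  have h6 := V.mul_mem (hd (w : A)) h5
  have h7 : ((w : A) ^ d) * (((w ^ d)⁻¹ * ⟨b, hb⟩ : B) : A) = b := by
    rw [Subgroup.coe_mul, Subgroup.coe_inv, Subgroup.coe_pow, mul_inv_cancel_left]
  rwa [h7] at h6

/-- the elements all of whose values have absolute value one -/
def B1 (ρ : A →* R) : Subgroup A where
  carrier := {a | ∀ χ : R →+* ℂ, ‖χ (ρ a)‖ = 1}
  one_mem' χ := by rw [map_one, map_one, norm_one]
  mul_mem' := by
    intro a b ha hb χ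
    rw [map_mul, map_mul, norm_mul, ha χ, hb χ, one_mul]
  inv_mem' := by
    intro a ha χ
    have h : χ (ρ a⁻¹) * χ (ρ a) = 1 := by
      rw [← map_mul, ← map_mul, inv_mul_cancel, map_one, map_one]
    have h1 := congrArg norm h
    rwa [norm_mul, ha χ, mul_one, norm_one] at h1

/-- the elements which are `1` modulo the power `j` of the nilradical -/
def J (ρ : A →* R) (j : ℕ) : Subgroup A where
  carrier := {a | ρ a - 1 ∈ nilradical R ^ j}
  one_mem' := by
    change ρ 1 - 1 ∈ nilradical R ^ j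
    rw [map_one, sub_self]
    exact Ideal.zero_mem _
  mul_mem' := by
    intro a b ha hb
    change ρ (a * b) - 1 ∈ nilradical R ^ j
    have h : ρ (a * b) - 1 = ρ a * (ρ b - 1) + (ρ a - 1) := by rw [map_mul]; ring
    rw [h]
    exact Ideal.add_mem _ (Ideal.mul_mem_left _ _ hb) ha
  inv_mem' := by
    intro a ha
    change ρ a⁻¹ - 1 ∈ nilradical R ^ j
    have h0 : ρ a⁻¹ * ρ a = 1 := by rw [← map_mul, inv_mul_cancel, map_one]
    have h : ρ a⁻¹ - 1 = -(ρ a⁻¹ * (ρ a - 1)) := by linear_combination h0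
    rw [h]
    exact Ideal.neg_mem_iff _ |>.2 (Ideal.mul_mem_left _ _ ha)

theorem good_J [Module.Finite ℤ R] (ρ : A →* R) (j : ℕ) (hj : 1 ≤ j) :
    Good ρ (J ρ j) (J ρ (j + 1)) := by
  have h1 : Module.Finite ℤ (R ⧸ nilradical R ^ (j + 1)) := inferInstance
  have h2 : AddGroup.FG (R ⧸ nilradical R ^ (j + 1)) := Module.Finite.iff_addGroup_fg.1 h1
  have h3 : Group.FG (Multiplicative (R ⧸ nilradical R ^ (j + 1))) := inferInstance
  let D : J ρ j →* Multiplicative (R ⧸ nilradical R ^ (j + 1)) :=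
    { toFun := fun a => Multiplicative.ofAdd (Ideal.Quotient.mk _ (ρ a - 1))
      map_one' := by
        change Ideal.Quotient.mk (nilradical R ^ (j + 1)) (ρ 1 - 1) = 0
        rw [map_one ρ, sub_self, map_zero]
      map_mul' := by
        intro a b
        change Ideal.Quotient.mk (nilradical R ^ (j + 1)) (ρ (a * b) - 1) =
          Ideal.Quotient.mk _ (ρ a - 1) + Ideal.Quotient.mk _ (ρ b - 1)
        rw [← map_add, Ideal.Quotient.eq]
        have e : ρ ((a : A) * b) - 1 - (ρ a - 1 + (ρ b - 1)) = (ρ a - 1) * (ρ b - 1) := by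
          rw [map_mul]; ring
        rw [e]
        have h4 : (ρ a - 1) * (ρ b - 1) ∈ nilradical R ^ j * nilradical R ^ j :=
          Ideal.mul_mem_mul a.2 b.2
        rw [← pow_add] at h4
        exact Ideal.pow_le_pow_right (by omega) h4 }
  refine good_step ρ D ?_ ?_
  · intro b hb
    exact Ideal.Quotient.eq_zero_iff_mem.1 hb
  · intro N hN
    refine ⟨N, hN, ?_⟩
    rintro b ⟨r, hr⟩
    refine ⟨Multiplicative.ofAdd (Ideal.Quotient.mk _ r), ?_⟩
    change N • Ideal.Quotient.mk (nilradical R ^ (j + 1)) r = Ideal.Quotient.mk _ (ρ b - 1)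
    rw [hr, nsmul_eq_mul, add_sub_cancel_left, map_mul, map_natCast]

theorem good_J1 [Module.Finite ℤ R] (ρ : A →* R) (j : ℕ) : Good ρ (J ρ 1) (J ρ (j + 1)) := by
  induction j with
  | zero => exact fun V _ hle => ⟨1, one_pos, inf_le_right.trans hle⟩
  | succ j ih => exact ih.trans (good_J ρ (j + 1) (by omega))

theorem good_unip [Module.Finite ℤ R] (ρ : A →* R) : Good ρ (J ρ 1) ρ.ker := by
  have h1 : IsNoetherian ℤ R := inferInstance
  have hN : IsNoetherianRing R := isNoetherian_of_tower ℤ h1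
  obtain ⟨s, hs⟩ := IsNoetherianRing.isNilpotent_nilradical R
  intro V hV hle
  refine good_J1 ρ s V hV (le_trans ?_ hle)
  intro a ha
  have h2 : ρ a - 1 ∈ nilradical R ^ (s + 1) := ha
  rw [pow_succ, hs, zero_mul, Ideal.zero_eq_bot, Ideal.mem_bot] at h2
  exact sub_eq_zero.1 h2

theorem good_B1 [Module.Finite ℤ R] [Module.Free ℤ R] (ρ : A →* R) :
    Good ρ (B1 ρ) (J ρ 1) := by
  intro V _ hle
  refine ⟨3, by norm_num, ?_⟩
  rintro a ⟨⟨r, hr⟩, ha⟩
  apply hle
  have h1 : IsNilpotent r := by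
    apply nilpotent_of_small
    intro χ
    have h2 := ha χ
    rw [hr, map_add, map_one, map_mul, map_natCast] at h2
    have h3 : ‖((3 : ℕ) : ℂ) * χ r‖ ≤ 2 := by
      calc ‖((3 : ℕ) : ℂ) * χ r‖ = ‖(1 + ((3 : ℕ) : ℂ) * χ r) - 1‖ := by rw [add_sub_cancel_left]
        _ ≤ ‖1 + ((3 : ℕ) : ℂ) * χ r‖ + ‖(1 : ℂ)‖ := norm_sub_le _ _
        _ = 2 := by rw [h2, norm_one]; norm_num
    rw [norm_mul, Complex.norm_natCast] at h3
    push_cast at h3
    linarith
  change ρ a - 1 ∈ nilradical R ^ 1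
  rw [pow_one, hr, add_sub_cancel_left]
  exact Ideal.mul_mem_left _ _ (mem_nilradical.2 h1)

/-- the real subfield -/
noncomputable def realPart (L : IntermediateField ℚ ℂ) : IntermediateField ℚ ℂ :=
  L ⊓ ((Algebra.ofId ℝ ℂ).restrictScalars ℚ).fieldRange

theorem mem_realPart {L : IntermediateField ℚ ℂ} {x : ℂ} :
    x ∈ realPart L ↔ x ∈ L ∧ ∃ r : ℝ, (r : ℂ) = x := by
  rw [realPart, IntermediateField.mem_inf, AlgHom.mem_fieldRange]
  rfl

theorem realPart_fd (L : IntermediateField ℚ ℂ) [FiniteDimensional ℚ L] :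
    FiniteDimensional ℚ (realPart L) :=
  Module.Finite.of_injective
    (IntermediateField.inclusion (inf_le_left : realPart L ≤ L)).toLinearMap
    (IntermediateField.inclusion (inf_le_left : realPart L ≤ L)).injective

/-- the hom `a ↦ |χ (ρ a)|²` -/
noncomputable def Dc (ρ : A →* R) (χ : R →+* ℂ) : A →* ℂˣ :=
  (((χ : R →* ℂ).comp ρ).toHomUnits) *
    (Units.map ((starRingEnd ℂ : ℂ →+* ℂ) : ℂ →* ℂ)).comp (((χ : R →* ℂ).comp ρ).toHomUnits)

theorem Dc_val (ρ : A →* R) (χ : R →+* ℂ) (a : A) :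
    ((Dc ρ χ a : ℂˣ) : ℂ) = χ (ρ a) * (starRingEnd ℂ) (χ (ρ a)) := rfl

theorem Dc_mem [Module.Finite ℤ R] (ρ : A →* R) (χ : R →+* ℂ) (L : IntermediateField ℚ ℂ)
    (hL : ∀ (χ : R →+* ℂ) (r : R), χ r ∈ L) (a : A) : Dc ρ χ a ∈ PU (realPart L) := by
  have hint : ∀ b : A, IsIntegral ℤ ((Dc ρ χ b : ℂˣ) : ℂ) := by
    intro b
    rw [Dc_val]
    exact (isIntegral_hom χ _).mul (isIntegral_hom ((starRingEnd ℂ : ℂ →+* ℂ).comp χ) _)
  have h0 : χ (ρ a) ≠ 0 := by
    intro h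
    have h1 : χ (ρ a) * χ (ρ a⁻¹) = 1 := by
      rw [← map_mul, ← map_mul, mul_inv_cancel, map_one, map_one]
    rw [h, zero_mul] at h1
    exact zero_ne_one h1
  have hns : ((Dc ρ χ a : ℂˣ) : ℂ) = (Complex.normSq (χ (ρ a)) : ℝ) := by
    rw [Dc_val, Complex.mul_conj]
  refine ⟨?_, hint a, ?_, Complex.normSq (χ (ρ a)), Complex.normSq_pos.2 h0, hns⟩
  · rw [mem_realPart]
    refine ⟨?_, _, hns.symm⟩
    rw [Dc_val]
    exact L.mul_mem (hL χ _) (hL ((starRingEnd ℂ : ℂ →+* ℂ).comp χ) _)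
  · rw [← map_inv]
    exact hint _

theorem good_abs (hF : Frob) [Module.Finite ℤ R] (ρ : A →* R) : Good ρ ⊤ (B1 ρ) := by
  obtain ⟨L, h1, h2, h3⟩ := exists_field (R := R)
  have hfd := realPart_fd L
  have hfg := pu_fg (realPart L)
  have hX : Finite (R →+* ℂ) := finite_homs
  have hfgE : Group.FG ((R →+* ℂ) → PU (realPart L)) := inferInstance
  let D : (⊤ : Subgroup A) →* ((R →+* ℂ) → PU (realPart L)) :=
    MonoidHom.pi fun χ => ((Dc ρ χ).codRestrict (PU (realPart L)) (Dc_mem ρ χ L h3)).comp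
      (Subgroup.subtype ⊤)
  have hD : ∀ (b : (⊤ : Subgroup A)) (χ : R →+* ℂ), ((D b χ : ℂˣ) : ℂ) =
      χ (ρ b) * (starRingEnd ℂ) (χ (ρ b)) := fun b χ => Dc_val ρ χ b
  refine good_step ρ D ?_ ?_
  · intro b hb χ
    have h4 := hD b χ
    rw [hb] at h4
    have h5 : (1 : ℂ) = χ (ρ b) * (starRingEnd ℂ) (χ (ρ b)) := h4
    rw [Complex.mul_conj, Complex.normSq_eq_norm_sq] at h5
    have h6 : ‖χ (ρ b)‖ ^ 2 = 1 := by exact_mod_cast h5.symm
    exact (pow_eq_one_iff_of_nonneg (norm_nonneg _) two_ne_zero).1 h6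
  · intro N hN
    obtain ⟨m, hm, h4⟩ := chev hF (realPart L) (by
      intro x hx
      obtain ⟨-, r, rfl⟩ := mem_realPart.1 hx
      exact Complex.conj_ofReal r) hN
    refine ⟨m, hm, ?_⟩
    rintro b ⟨r, hr⟩
    have h5 : ∀ χ : R →+* ℂ, ∃ v : PU (realPart L), v ^ N = D b χ := by
      intro χ
      obtain ⟨v, hv, hvN⟩ := h4 _ (D b χ).2 (by
        have hm0 : (m : ℂ) ≠ 0 := by exact_mod_cast hm.ne'
        have e1 : χ (ρ b) = 1 + (m : ℂ) * χ r := by rw [hr, map_add, map_one, map_mul, map_natCast]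
        have e2 : (((D b χ : ℂˣ) : ℂ) - 1) / m = χ r + (starRingEnd ℂ) (χ r) +
            (m : ℂ) * (χ r * (starRingEnd ℂ) (χ r)) := by
          rw [hD, e1, map_add, map_one, map_mul, Complex.conj_natCast]
          field_simp
          ring
        rw [e2]
        have i1 : IsIntegral ℤ (χ r) := isIntegral_hom χ r
        have i2 : IsIntegral ℤ ((starRingEnd ℂ) (χ r)) :=
          isIntegral_hom ((starRingEnd ℂ : ℂ →+* ℂ).comp χ) r
        exact (i1.add i2).add ((isIntegral_algebraMap (R := ℤ) (x := (m : ℤ))).mul (i1.mul i2)))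
      exact ⟨⟨v, hv⟩, Subtype.ext hvN⟩
    choose v hv using h5
    exact ⟨v, funext hv⟩

/-- **The congruence topology.** Let the abelian group `A` act on the commutative ring `R`, finite and
free over `ℤ`, by units. Every subgroup of finite index of `A` which contains the kernel contains the
elements which are `1` modulo `m`, for some `m ≥ 1`. -/
theorem good_all (hF : Frob) [Module.Finite ℤ R] [Module.Free ℤ R] (ρ : A →* R) :
    Good ρ ⊤ ρ.ker :=
  ((good_abs hF ρ).trans (good_B1 ρ)).trans (good_unip ρ)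

end Pool.Agent.U670.CV
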