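import Pool.Agent.U670.CV.Pol

/-!
# Trace functions on the free group
-/

set_option autoImplicit false
set_option linter.unusedSectionVars false

namespace Pool.Agent.U670.CV

open Polynomial

section

variable {s : ℕ} [NeZero s] {I : Type} [DecidableEq I] (i : Fin s → I)

/-- the matrix of the letter `j` -/
def Y (j : I) : Matrix (Fin s) (Fin s) ℤ := fun a b => if b = a + 1 ∧ i a = j then 1 else 0

theorem Y_nonneg (j : I) (a b : Fin s) : 0 ≤ Y i j a b := by
  unfold Y
  split_ifs <;> simp

theorem Y_sq (h : ∀ a : Fin s, i a ≠ i (a + 1)) (j : I) : Y i j * Y i j = 0 := by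
  ext a b
  rw [Matrix.mul_apply]
  apply Finset.sum_eq_zero
  intro c _
  unfold Y
  by_cases h1 : c = a + 1 ∧ i a = j
  · by_cases h2 : b = c + 1 ∧ i c = j
    · exfalso
      apply h a
      rw [h1.2, ← h1.1, h2.2]
    · rw [if_neg h2, mul_zero]
  · rw [if_neg h1, zero_mul]

/-- `X` times a constant matrix -/
noncomputable def N (B : Matrix (Fin s) (Fin s) ℤ) : Matrix (Fin s) (Fin s) ℤ[X] :=
  (X : ℤ[X]) • B.map (C : ℤ →+* ℤ[X])

theorem N_mul (B B' : Matrix (Fin s) (Fin s) ℤ) (h : B * B' = 0) : N B * N B' = 0 := by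
  unfold N
  rw [Matrix.smul_mul, Matrix.mul_smul, ← Matrix.map_mul, h]
  simp

/-- the unit `1 + X B` -/
noncomputable def un (B : Matrix (Fin s) (Fin s) ℤ) (h : B * B = 0) :
    (Matrix (Fin s) (Fin s) ℤ[X])ˣ where
  val := 1 + N B
  inv := 1 - N B
  val_inv := by
    have h1 := N_mul B B h
    rw [add_mul, one_mul, mul_sub, mul_one, h1]
    abel
  inv_val := by
    have h1 := N_mul B B h
    rw [sub_mul, one_mul, mul_add, mul_one, h1]
    abel

theorem N_add (B B' : Matrix (Fin s) (Fin s) ℤ) : N (B + B') = N B + N B' := by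
  unfold N
  rw [Matrix.map_add _ (by simp), smul_add]

theorem un_zpow (B : Matrix (Fin s) (Fin s) ℤ) (h : B * B = 0) (e : ℤ) :
    (((un B h) ^ e : (Matrix (Fin s) (Fin s) ℤ[X])ˣ) : Matrix (Fin s) (Fin s) ℤ[X]) =
      1 + N (e • B) := by
  have h1 := N_mul B B h
  induction e using Int.induction_on with
  | zero => simp [N]
  | succ n ih =>
    rw [zpow_add_one, Units.val_mul, ih]
    change (1 + N ((n : ℤ) • B)) * (1 + N B) = _
    have h2 : N ((n : ℤ) • B) * N B = 0 := N_mul _ _ (by rw [Matrix.smul_mul, h, smul_zero])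
    rw [add_mul, one_mul, mul_add, mul_one, h2, add_smul, one_smul, N_add]
    abel
  | pred n ih =>
    rw [zpow_sub_one, Units.val_mul, ih]
    change (1 + N ((-(n : ℤ)) • B)) * (1 - N B) = _
    have h2 : N ((-(n : ℤ)) • B) * N B = 0 := N_mul _ _ (by rw [Matrix.smul_mul, h, smul_zero])
    have h3 : N ((-(n : ℤ) - 1) • B) = N ((-(n : ℤ)) • B) - N B := by
      have h4 : (-(n : ℤ)) • B = (-(n : ℤ) - 1) • B + B := by
        rw [sub_smul, one_smul, sub_add_cancel]
      rw [h4, N_add, add_sub_cancel_right]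
    rw [add_mul, one_mul, mul_sub, mul_one, h2, h3]
    abel

/-- the coefficients -/
def cf (k : ℕ) (Q : Matrix (Fin s) (Fin s) ℤ[X]) : Matrix (Fin s) (Fin s) ℤ :=
  Q.map fun p => p.coeff k

theorem cf_mul_zero (B : Matrix (Fin s) (Fin s) ℤ) (Q : Matrix (Fin s) (Fin s) ℤ[X]) :
    cf 0 ((1 + N B) * Q) = cf 0 Q := by
  ext a b
  rw [add_mul, one_mul]
  unfold N
  rw [Matrix.smul_mul]
  simp [cf]

theorem cf_mul_succ (B : Matrix (Fin s) (Fin s) ℤ) (Q : Matrix (Fin s) (Fin s) ℤ[X]) (k : ℕ) :
    cf (k + 1) ((1 + N B) * Q) = cf (k + 1) Q + B * cf k Q := by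
  ext a b
  rw [add_mul, one_mul]
  unfold N
  rw [Matrix.smul_mul]
  simp [cf, Matrix.mul_apply, Polynomial.coeff_X_mul]

theorem cf_prod (L : List (Matrix (Fin s) (Fin s) ℤ)) :
    (∀ k, L.length < k → cf k ((L.map fun B => 1 + N B).prod) = 0) ∧
      cf L.length ((L.map fun B => 1 + N B).prod) = L.prod := by
  induction L with
  | nil =>
    constructor
    · intro k hk
      ext a b
      have hk0 : k ≠ 0 := by
        rw [List.length_nil] at hk
        omega
      simp only [List.map_nil, List.prod_nil, cf, Matrix.map_apply, Matrix.zero_apply,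
        Matrix.one_apply]
      split_ifs
      · rw [Polynomial.coeff_one, if_neg hk0]
      · simp
    · ext a b
      simp only [List.map_nil, List.prod_nil, List.length_nil, cf, Matrix.map_apply,
        Matrix.one_apply]
      split_ifs <;> simp
  | cons B L ih =>
    constructor
    · intro k hk
      cases k with
      | zero => simp at hk
      | succ k =>
        rw [List.length_cons] at hk
        rw [List.map_cons, List.prod_cons, cf_mul_succ, ih.1 _ (by omega), ih.1 _ (by omega)]
        simp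
    · rw [List.map_cons, List.prod_cons, List.length_cons, cf_mul_succ, ih.1 _ (by omega), ih.2,
        List.prod_cons, zero_add]

/-! ### The class functions -/

theorem trace_mem {G : Type} [Group G] (ρ : G →* (Matrix (Fin s) (Fin s) ℤ[X])ˣ)
    (hρ : ∀ g, ∃ W : Matrix (Fin s) (Fin s) ℤ[X], (ρ g : Matrix (Fin s) (Fin s) ℤ[X]) =
      1 + (X : ℤ[X]) • W) (k : ℕ) (c : ℕ) : ∀ (j : ℕ), j + c = k + 1 →
    ∀ Q : Matrix (Fin s) (Fin s) ℤ[X],
      (fun g => (Matrix.trace ((((X : ℤ[X]) ^ j) • Q) * (ρ g : Matrix (Fin s) (Fin s) ℤ[X]))).coeff k)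
        ∈ Pol G ℤ c := by
  induction c with
  | zero =>
    intro j hj Q
    rw [mem_zero]
    funext g
    rw [Matrix.smul_mul, Matrix.trace_smul, smul_eq_mul, Polynomial.coeff_X_pow_mul',
      if_neg (by omega)]
    rfl
  | succ c ih =>
    intro j hj Q g
    obtain ⟨W, hW⟩ := hρ g
    have h1 := ih (j + 1) (by omega) (W * Q)
    convert h1 using 1
    funext x
    change (Matrix.trace ((((X : ℤ[X]) ^ j) • Q) * ((ρ (x * g) : (Matrix (Fin s) (Fin s) ℤ[X])ˣ) :
      Matrix (Fin s) (Fin s) ℤ[X]))).coeff k -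
      (Matrix.trace ((((X : ℤ[X]) ^ j) • Q) * (ρ x : Matrix (Fin s) (Fin s) ℤ[X]))).coeff k = _
    rw [map_mul, Units.val_mul, hW, ← Polynomial.coeff_sub, ← Matrix.trace_sub, ← mul_sub,
      mul_add, mul_one, add_sub_cancel_left, ← mul_assoc, Matrix.trace_mul_comm]
    congr 2
    simp only [Matrix.smul_mul, Matrix.mul_smul, smul_smul, ← mul_assoc]
    rw [pow_succ]

/-- the coefficient of the trace is a polynomial class function -/
theorem trace_CF {G : Type} [Group G] (ρ : G →* (Matrix (Fin s) (Fin s) ℤ[X])ˣ)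
    (hρ : ∀ g, ∃ W : Matrix (Fin s) (Fin s) ℤ[X], (ρ g : Matrix (Fin s) (Fin s) ℤ[X]) =
      1 + (X : ℤ[X]) • W) (k : ℕ) :
    (fun g => (Matrix.trace (ρ g : Matrix (Fin s) (Fin s) ℤ[X])).coeff k) ∈ CF G (k + 1) := by
  constructor
  · have h1 := trace_mem ρ hρ k (k + 1) 0 (by omega) 1
    simpa using h1
  · intro x y
    simp only [map_mul, Units.val_mul]
    rw [Matrix.trace_mul_comm]

/-- the representation of the free group -/
noncomputable def rep (h : ∀ a : Fin s, i a ≠ i (a + 1)) :
    FreeGroup I →* (Matrix (Fin s) (Fin s) ℤ[X])ˣ :=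
  FreeGroup.lift fun j => un (Y i j) (Y_sq i h j)

theorem rep_cong (h : ∀ a : Fin s, i a ≠ i (a + 1)) (g : FreeGroup I) :
    ∃ W : Matrix (Fin s) (Fin s) ℤ[X], (rep i h g : Matrix (Fin s) (Fin s) ℤ[X]) =
      1 + (X : ℤ[X]) • W := by
  induction g using FreeGroup.induction_on with
  | C1 => exact ⟨0, by simp⟩
  | of j =>
    refine ⟨(Y i j).map (C : ℤ →+* ℤ[X]), ?_⟩
    rw [rep, FreeGroup.lift_apply_of]
    rfl
  | inv_of j _ =>
    refine ⟨-(Y i j).map (C : ℤ →+* ℤ[X]), ?_⟩
    rw [rep, map_inv, FreeGroup.lift_apply_of, smul_neg, ← sub_eq_add_neg]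
    rfl
  | mul x y hx hy =>
    obtain ⟨W, hW⟩ := hx
    obtain ⟨W', hW'⟩ := hy
    refine ⟨W + W' + (X : ℤ[X]) • (W * W'), ?_⟩
    rw [map_mul, Units.val_mul, hW, hW']
    simp only [add_mul, mul_add, one_mul, mul_one, Matrix.smul_mul, Matrix.mul_smul, smul_add]
    abel

/-- the element given by a list of syllables -/
def wd {I : Type} (L : List (I × ℤ)) : FreeGroup I := (L.map fun p => FreeGroup.of p.1 ^ p.2).prod

theorem rep_wd (h : ∀ a : Fin s, i a ≠ i (a + 1)) (L : List (I × ℤ)) :
    (rep i h (wd L) : Matrix (Fin s) (Fin s) ℤ[X]) =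
      ((L.map fun p => p.2 • Y i p.1).map fun B => 1 + N B).prod := by
  induction L with
  | nil => simp [wd]
  | cons p L ih =>
    have h1 : wd (p :: L) = FreeGroup.of p.1 ^ p.2 * wd L := by simp [wd]
    rw [h1, map_mul, Units.val_mul, ih, List.map_cons, List.map_cons, List.prod_cons, map_zpow,
      rep, FreeGroup.lift_apply_of, un_zpow]

theorem trace_wd (h : ∀ a : Fin s, i a ≠ i (a + 1)) (L : List (I × ℤ)) (k : ℕ) :
    (Matrix.trace (rep i h (wd L) : Matrix (Fin s) (Fin s) ℤ[X])).coeff k =
      Matrix.trace (cf k ((L.map fun p => p.2 • Y i p.1).map fun B => 1 + N B).prod) := by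
  rw [rep_wd, Matrix.trace, Matrix.trace, Polynomial.finsetSum_coeff]
  rfl

end

theorem ofNat_succ {n : ℕ} [NeZero n] (k : ℕ) : Fin.ofNat n (k + 1) = Fin.ofNat n k + 1 := by
  apply Fin.ext
  rw [Fin.val_add, Fin.val_one', Fin.val_ofNat, Fin.val_ofNat, ← Nat.add_mod]

theorem path {I : Type} [DecidableEq I] (L : List (I × ℤ)) [NeZero L.length] (k : ℕ)
    (hk : k ≤ L.length) :
    (∀ a b, 0 ≤ ((L.take k).map fun p => Y (fun a : Fin L.length => (L.get a).1) p.1).prod a b) ∧
      1 ≤ ((L.take k).map fun p => Y (fun a : Fin L.length => (L.get a).1) p.1).prod 0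
        (Fin.ofNat L.length k) := by
  induction k with
  | zero =>
    constructor
    · intro a b
      simp only [List.take_zero, List.map_nil, List.prod_nil, Matrix.one_apply]
      split_ifs <;> simp
    · have h0 : Fin.ofNat L.length 0 = 0 := rfl
      rw [h0]
      simp [Matrix.one_apply]
  | succ k ih =>
    obtain ⟨h1, h2⟩ := ih (by omega)
    have hk' : k < L.length := by omega
    have e : L.take (k + 1) = L.take k ++ [L[k]] := (List.take_append_getElem hk').symm
    rw [e, List.map_append, List.prod_append, List.map_singleton, List.prod_singleton]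
    constructor
    · intro a b
      rw [Matrix.mul_apply]
      exact Finset.sum_nonneg fun c _ => mul_nonneg (h1 a c) (Y_nonneg _ _ _ _)
    · rw [Matrix.mul_apply]
      have hval : ((Fin.ofNat L.length k : Fin L.length) : ℕ) = k := by
        rw [Fin.val_ofNat, Nat.mod_eq_of_lt hk']
      have h3 : Y (fun a : Fin L.length => (L.get a).1) (L[k]).1 (Fin.ofNat L.length k)
          (Fin.ofNat L.length (k + 1)) = 1 := by
        unfold Y
        rw [if_pos]
        refine ⟨ofNat_succ k, ?_⟩
        simp only [List.get_eq_getElem, hval]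
      have h4 := Finset.single_le_sum (s := Finset.univ) (f := fun c =>
        ((L.take k).map fun p => Y (fun a : Fin L.length => (L.get a).1) p.1).prod 0 c *
        Y (fun a : Fin L.length => (L.get a).1) (L[k]).1 c (Fin.ofNat L.length (k + 1)))
        (fun c _ => mul_nonneg (h1 0 c) (Y_nonneg _ _ _ _))
        (Finset.mem_univ (Fin.ofNat L.length k))
      refine le_trans ?_ h4
      simp only [h3, mul_one]
      exact h2

theorem smul_prod {I : Type} {s : ℕ} (L : List (I × ℤ)) (Z : I → Matrix (Fin s) (Fin s) ℤ) :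
    (L.map fun p => p.2 • Z p.1).prod = (L.map fun p => p.2).prod • (L.map fun p => Z p.1).prod := by
  induction L with
  | nil => simp
  | cons p L ih =>
    rw [List.map_cons, List.map_cons, List.map_cons, List.prod_cons, List.prod_cons,
      List.prod_cons, ih, Matrix.smul_mul, Matrix.mul_smul, smul_smul]

/-- a cyclically reduced product of `s ≥ 2` syllables is separated from all products of fewer
syllables by a polynomial class function -/
theorem sep {I : Type} [DecidableEq I] (L : List (I × ℤ)) (hs : 2 ≤ L.length)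
    (hL0 : ∀ p ∈ L, p.2 ≠ 0) (hL1 : L.IsChain (fun p q => p.1 ≠ q.1))
    (hL2 : ∀ x ∈ L.getLast?, ∀ y ∈ L.head?, x.1 ≠ y.1) :
    ∃ (c : ℕ) (h : FreeGroup I → ℤ), h ∈ CF (FreeGroup I) c ∧ h (wd L) ≠ 0 ∧
      ∀ L' : List (I × ℤ), L'.length < L.length → h (wd L') = 0 := by
  have hne : NeZero L.length := ⟨by omega⟩
  let i : Fin L.length → I := fun a => (L.get a).1
  have hi : ∀ a : Fin L.length, i a ≠ i (a + 1) := by
    intro a
    have h1 : ((a + 1 : Fin L.length) : ℕ) = (a.1 + 1) % L.length := by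
      rw [Fin.val_add, Fin.val_one', Nat.add_mod_mod]
    by_cases h : a.1 + 1 < L.length
    · have h2 : ((a + 1 : Fin L.length) : ℕ) = a.1 + 1 := by rw [h1, Nat.mod_eq_of_lt h]
      have h3 := List.isChain_iff_getElem.1 hL1 a.1 h
      have e1 : i (a + 1) = (L[a.1 + 1]).1 := by
        simp only [i, List.get_eq_getElem, h2]
      have e2 : i a = (L[a.1]).1 := rfl
      rw [e1, e2]
      exact h3
    · have h4 : a.1 + 1 = L.length := by have := a.2; omega
      have h2 : ((a + 1 : Fin L.length) : ℕ) = 0 := by rw [h1, h4, Nat.mod_self]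
      have hne' : L ≠ [] := by rintro rfl; simp at hs
      have e1 : i (a + 1) = (L[0]'(by omega)).1 := by
        simp only [i, List.get_eq_getElem, h2]
      have e2 : i a = (L[L.length - 1]'(by omega)).1 := by
        simp only [i, List.get_eq_getElem]
        congr 2
        omega
      rw [e1, e2]
      apply hL2
      · rw [List.getLast?_eq_getElem?, List.getElem?_eq_getElem (by omega)]
        rfl
      · rw [List.head?_eq_getElem?, List.getElem?_eq_getElem (by omega)]
        rfl
  refine ⟨L.length + 1, _, trace_CF (rep i hi) (rep_cong i hi) L.length, ?_, ?_⟩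
  · rw [trace_wd]
    have h1 := (cf_prod (L.map fun p => p.2 • Y i p.1)).2
    rw [List.length_map] at h1
    rw [h1, smul_prod, Matrix.trace_smul]
    obtain ⟨h2, h3⟩ := path L L.length le_rfl
    rw [List.take_length] at h2 h3
    have h4 : Fin.ofNat L.length L.length = 0 := by
      apply Fin.ext
      rw [Fin.val_ofNat, Nat.mod_self]
      rfl
    rw [h4] at h3
    have h5 : 1 ≤ Matrix.trace ((L.map fun p => Y i p.1).prod) := by
      refine le_trans h3 ?_
      exact Finset.single_le_sum (s := Finset.univ)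
        (f := fun a => ((L.map fun p => Y i p.1).prod) a a) (fun a _ => h2 a a)
        (Finset.mem_univ 0)
    rw [smul_eq_mul]
    apply mul_ne_zero
    · apply List.prod_ne_zero
      intro h0
      obtain ⟨p, hp, hp0⟩ := List.mem_map.1 h0
      exact hL0 p hp hp0
    · omega
  · intro L' hL'
    rw [trace_wd, (cf_prod (L'.map fun p => p.2 • Y i p.1)).1 _ (by rwa [List.length_map])]
    exact Matrix.trace_zero _ _

end Pool.Agent.U670.CV
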